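import Pool.Agent.H105R2.Lat.Defs

/-!
# Topology of `SO(1,p)`: compactness and compact generation
-/

set_option autoImplicit false

namespace Pool.Agent.H105R2.Lat

open Matrix Topology

section General

variable {ι : Type} [Fintype ι] [DecidableEq ι] {F : Matrix ι ι ℝ}

theorem mat_mul (g h : SO F) : mat (g * h) = mat g * mat h := rfl
theorem mat_one : mat (1 : SO F) = 1 := rfl
theorem mat_injective : Function.Injective (mat : SO F → Matrix ι ι ℝ) :=
  fun _ _ h => Subtype.ext (Subtype.ext h)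
theorem mat_mul_inv (g : SO F) : mat g * mat g⁻¹ = 1 := by
  rw [← mat_mul, mul_inv_cancel, mat_one]
theorem mat_inv_mul (g : SO F) : mat g⁻¹ * mat g = 1 := by
  rw [← mat_mul, inv_mul_cancel, mat_one]

theorem mat_mkSO (A : Matrix ι ι ℝ) (h1 : A.det = 1) (h2 : Matrix.transpose A * F * A = F) :
    mat (mkSO A h1 h2) = A := rfl

theorem isClosedEmbedding_mat : IsClosedEmbedding (mat : SO F → Matrix ι ι ℝ) := by
  have h1 : IsClosedEmbedding (Subtype.val : SOsub F → Matrix.SpecialLinearGroup ι ℝ) := by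
    apply IsClosed.isClosedEmbedding_subtypeVal
    have : Continuous fun g : Matrix.SpecialLinearGroup ι ℝ => Matrix.transpose g.1 * F * g.1 := by
      have h : Continuous fun g : Matrix.SpecialLinearGroup ι ℝ => g.1 := continuous_subtype_val
      exact (h.matrix_transpose.matrix_mul continuous_const).matrix_mul h
    exact isClosed_singleton.preimage this
  exact Matrix.SpecialLinearGroup.isClosedEmbedding_val.comp h1

theorem continuous_mat : Continuous (mat : SO F → Matrix ι ι ℝ) :=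
  isClosedEmbedding_mat.continuous

end General

theorem J_mul_J (p : ℕ) : J p * J p = 1 := by
  rw [J, Matrix.diagonal_mul_diagonal, ← Matrix.diagonal_one]
  congr 1
  funext i
  split_ifs <;> norm_num

theorem J_transpose (p : ℕ) : Matrix.transpose (J p) = J p := by
  rw [J, Matrix.diagonal_transpose]

variable {p : ℕ}

theorem mat_form' (g : SO1 p) : mat g * J p * Matrix.transpose (mat g) = J p := by
  have h1 := mat_form g
  have h2 : (J p * Matrix.transpose (mat g) * J p) * mat g = 1 := by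
    rw [Matrix.mul_assoc (J p), Matrix.mul_assoc (J p), h1, J_mul_J]
  have h3 := mul_eq_one_comm.1 h2
  calc mat g * J p * Matrix.transpose (mat g)
      = (mat g * (J p * Matrix.transpose (mat g) * J p)) * J p := by
        simp only [Matrix.mul_assoc, J_mul_J, Matrix.mul_one]
    _ = J p := by rw [h3, Matrix.one_mul]

/-- the form -/
theorem form_apply (A : Matrix (Fin (p + 1)) (Fin (p + 1)) ℝ) (j k : Fin (p + 1)) :
    (Matrix.transpose A * J p * A) j k = A 0 j * A 0 k - ∑ i : Fin p, A i.succ j * A i.succ k := by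
  rw [Matrix.mul_apply, Fin.sum_univ_succ, J]
  simp only [Matrix.mul_diagonal, Matrix.transpose_apply, if_true]
  simp [Fin.succ_ne_zero, sub_eq_add_neg]

theorem form_apply' (A : Matrix (Fin (p + 1)) (Fin (p + 1)) ℝ) (j k : Fin (p + 1)) :
    (A * J p * Matrix.transpose A) j k = A j 0 * A k 0 - ∑ i : Fin p, A j i.succ * A k i.succ := by
  rw [Matrix.mul_apply, Fin.sum_univ_succ, J]
  simp only [Matrix.mul_diagonal, Matrix.transpose_apply, if_true]
  simp [Fin.succ_ne_zero, sub_eq_add_neg]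

theorem J_zero : J p 0 0 = 1 := by simp [J]
theorem J_succ (i : Fin p) : J p i.succ i.succ = -1 := by simp [J, Fin.succ_ne_zero]

theorem row_zero (g : SO1 p) : mat g 0 0 ^ 2 - ∑ i : Fin p, mat g 0 i.succ ^ 2 = 1 := by
  have := form_apply' (mat g) 0 0
  rw [mat_form', J_zero] at this
  simp only [pow_two]; linarith

theorem col_zero (g : SO1 p) : mat g 0 0 ^ 2 - ∑ i : Fin p, mat g i.succ 0 ^ 2 = 1 := by
  have := form_apply (mat g) 0 0
  rw [mat_form, J_zero] at this
  simp only [pow_two]; linarith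

theorem col_succ (g : SO1 p) (j : Fin p) :
    mat g 0 j.succ ^ 2 - ∑ i : Fin p, mat g i.succ j.succ ^ 2 = -1 := by
  have := form_apply (mat g) j.succ j.succ
  rw [mat_form, J_succ] at this
  simp only [pow_two]; linarith

theorem entry_sq_le (g : SO1 p) (i j : Fin (p + 1)) : mat g i j ^ 2 ≤ 1 + mat g 0 0 ^ 2 := by
  have hr : ∀ j : Fin p, mat g 0 j.succ ^ 2 ≤ mat g 0 0 ^ 2 := by
    intro j
    have h1 := row_zero g
    have h2 : mat g 0 j.succ ^ 2 ≤ ∑ i : Fin p, mat g 0 i.succ ^ 2 :=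
      Finset.single_le_sum (f := fun i : Fin p => mat g 0 i.succ ^ 2)
        (fun i _ => sq_nonneg _) (Finset.mem_univ j)
    linarith
  refine Fin.cases ?_ (fun i => ?_) i <;> refine Fin.cases ?_ (fun j => ?_) j
  · linarith
  · linarith [hr j]
  · have h1 := col_zero g
    have h2 : mat g i.succ 0 ^ 2 ≤ ∑ i : Fin p, mat g i.succ 0 ^ 2 :=
      Finset.single_le_sum (f := fun i : Fin p => mat g i.succ 0 ^ 2)
        (fun i _ => sq_nonneg _) (Finset.mem_univ i)
    linarith
  · have h1 := col_succ g j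
    have h2 : mat g i.succ j.succ ^ 2 ≤ ∑ i : Fin p, mat g i.succ j.succ ^ 2 :=
      Finset.single_le_sum (f := fun i : Fin p => mat g i.succ j.succ ^ 2)
        (fun i _ => sq_nonneg _) (Finset.mem_univ i)
    linarith [hr j]

/-- the set of the elements with small `(0,0)` entry -/
def ball (p : ℕ) (C : ℝ) : Set (SO1 p) := {g | |mat g 0 0| ≤ C}

theorem isCompact_box (ι : Type) [Fintype ι] (κ : Type) [Fintype κ] (R : ℝ) :
    IsCompact {A : Matrix ι κ ℝ | ∀ i j, |A i j| ≤ R} := by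
  have h : {A : Matrix ι κ ℝ | ∀ i j, |A i j| ≤ R}
      = Set.pi Set.univ (fun _ : ι => Set.pi Set.univ (fun _ : κ => Set.Icc (-R) R)) := by
    ext A
    constructor
    · intro h i _ j _
      exact abs_le.1 (h i j)
    · intro h i j
      exact abs_le.2 (h i trivial j trivial)
  rw [h]
  exact isCompact_univ_pi fun _ => isCompact_univ_pi fun _ => isCompact_Icc

theorem isCompact_ball (C : ℝ) : IsCompact (ball p C) := by
  have h1 : IsCompact (mat ⁻¹' {A : Matrix (Fin (p + 1)) (Fin (p + 1)) ℝ |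
      ∀ i j, |A i j| ≤ 1 + |C|} : Set (SO1 p)) :=
    isClosedEmbedding_mat.isCompact_preimage (isCompact_box _ _ _)
  refine h1.of_isClosed_subset ?_ ?_
  · have : Continuous fun g : SO1 p => |mat g 0 0| :=
      (continuous_mat.matrix_elem 0 0).abs
    exact isClosed_le this continuous_const
  · intro g hg i j
    have h2 : |mat g 0 0| ≤ C := hg
    have h3 := entry_sq_le g i j
    have h4 : mat g 0 0 ^ 2 ≤ |C| ^ 2 := by
      rw [sq_abs, ← sq_abs]
      exact pow_le_pow_left₀ (abs_nonneg _) h2 2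
    apply abs_le_of_sq_le_sq _ (by positivity)
    nlinarith [abs_nonneg C]

theorem J_mulVec (y : Fin (p + 1) → ℝ) (i : Fin (p + 1)) :
    (J p *ᵥ y) i = (if i = 0 then 1 else -1) * y i := by
  rw [J, Matrix.mulVec_diagonal]

theorem J_mul_zero (A : Matrix (Fin (p + 1)) (Fin (p + 1)) ℝ) (j : Fin (p + 1)) :
    (J p * A) 0 j = A 0 j := by
  rw [J, Matrix.diagonal_mul]; simp

/-- the reflection matrix -/
noncomputable def refl (n : Fin (p + 1) → ℝ) : Matrix (Fin (p + 1)) (Fin (p + 1)) ℝ :=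
  1 - (2 / (n ⬝ᵥ (J p *ᵥ n))) • Matrix.vecMulVec n (J p *ᵥ n)

theorem refl_form (n : Fin (p + 1) → ℝ) (hn : n ⬝ᵥ (J p *ᵥ n) ≠ 0) :
    Matrix.transpose (refl n) * J p * refl n = J p := by
  have h1 : Matrix.transpose (Matrix.vecMulVec n (J p *ᵥ n)) =
      Matrix.vecMulVec (J p *ᵥ n) n := Matrix.transpose_vecMulVec _ _
  have h2 : J p * Matrix.vecMulVec n (J p *ᵥ n) = Matrix.vecMulVec (J p *ᵥ n) (J p *ᵥ n) := by
    rw [Matrix.mul_vecMulVec]
  have h3 : Matrix.vecMulVec (J p *ᵥ n) n * J p = Matrix.vecMulVec (J p *ᵥ n) (J p *ᵥ n) := by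
    rw [Matrix.vecMulVec_mul]
    congr 1
    rw [← Matrix.mulVec_transpose, J_transpose]
  have h4 : Matrix.vecMulVec (J p *ᵥ n) n * J p * Matrix.vecMulVec n (J p *ᵥ n) =
      (n ⬝ᵥ (J p *ᵥ n)) • Matrix.vecMulVec (J p *ᵥ n) (J p *ᵥ n) := by
    rw [h3, Matrix.vecMulVec_mul_vecMulVec, dotProduct_comm]
    simp [Matrix.vecMulVec_smul]
  set c := n ⬝ᵥ (J p *ᵥ n) with hc
  have : Matrix.transpose (refl n) = 1 - (2 / c) • Matrix.vecMulVec (J p *ᵥ n) n := by
    rw [refl, ← hc, Matrix.transpose_sub, Matrix.transpose_smul, h1, Matrix.transpose_one]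
  rw [this, refl, ← hc, Matrix.sub_mul, Matrix.one_mul, Matrix.smul_mul, Matrix.mul_sub,
    Matrix.mul_one, Matrix.mul_smul, Matrix.sub_mul, h2, Matrix.smul_mul, h4, h3]
  rw [smul_smul, div_mul_cancel₀ _ hn, two_smul, smul_sub, smul_add]
  abel

theorem refl_det (n : Fin (p + 1) → ℝ) (hn : n ⬝ᵥ (J p *ᵥ n) ≠ 0) : (refl n).det = -1 := by
  have h : refl n = 1 + Matrix.replicateCol Unit (-(2 / (n ⬝ᵥ (J p *ᵥ n))) • n) *
      Matrix.replicateRow Unit (J p *ᵥ n) := by
    rw [refl, sub_eq_add_neg]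
    congr 1
    ext i j
    simp [Matrix.vecMulVec_apply, Matrix.mul_apply]
    ring
  rw [h, Matrix.det_one_add_replicateCol_mul_replicateRow]
  rw [dotProduct_smul, dotProduct_comm (J p *ᵥ n) n, smul_eq_mul, neg_mul, div_mul_cancel₀ _ hn]
  norm_num

/-- `diag(1,-1,1,...,1)` -/
noncomputable def flip (p : ℕ) : Matrix (Fin (p + 1)) (Fin (p + 1)) ℝ :=
  Matrix.diagonal fun i => if i = 1 then -1 else 1

theorem flip_form (p : ℕ) : Matrix.transpose (flip p) * J p * flip p = J p := by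
  rw [flip, J, Matrix.diagonal_transpose, Matrix.diagonal_mul_diagonal,
    Matrix.diagonal_mul_diagonal]
  congr 1
  funext i
  split_ifs <;> norm_num

theorem flip_det (hp : 1 ≤ p) : (flip p).det = -1 := by
  obtain ⟨p, rfl⟩ : ∃ m, p = m + 1 := ⟨p - 1, by omega⟩
  rw [flip, Matrix.det_diagonal]
  rw [Finset.prod_eq_single (1 : Fin (p + 1 + 1))]
  · simp
  · intro i _ hi; simp [hi]
  · simp

/-- An element of `SO(1,p)` which maps the basis vector `e₀` to `z`. -/
theorem exists_map (hp : 1 ≤ p) (z : Fin (p + 1) → ℝ) (hz : z ⬝ᵥ (J p *ᵥ z) = 1)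
    (hz0 : z 0 ≠ 1) : ∃ g : SO1 p, ∀ i, mat g i 0 = z i := by
  classical
  set e : Fin (p + 1) → ℝ := Pi.single 0 1 with he
  have hJe : J p *ᵥ e = e := by
    rw [he, J]
    ext i
    rw [Matrix.mulVec_diagonal]
    by_cases hi : i = 0
    · subst hi; simp
    · simp [hi]
  have hee : e ⬝ᵥ (J p *ᵥ e) = 1 := by rw [hJe, he]; simp
  have hze : e ⬝ᵥ (J p *ᵥ z) = z 0 := by
    rw [he, single_dotProduct, J, Matrix.mulVec_diagonal]; simp
  have hze' : z ⬝ᵥ (J p *ᵥ e) = z 0 := by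
    rw [hJe, he, dotProduct_single]; simp
  set n := z - e with hn
  have hnn : n ⬝ᵥ (J p *ᵥ n) = 2 - 2 * z 0 := by
    rw [hn, Matrix.mulVec_sub, sub_dotProduct, dotProduct_sub, dotProduct_sub, hz, hze, hze', hee]
    ring
  have hnn0 : n ⬝ᵥ (J p *ᵥ n) ≠ 0 := by
    rw [hnn]; intro h; apply hz0; linarith
  refine ⟨mkSO (refl n * flip p) ?_ ?_, ?_⟩
  · rw [Matrix.det_mul, refl_det n hnn0, flip_det hp]; norm_num
  · calc Matrix.transpose (refl n * flip p) * J p * (refl n * flip p)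
        = Matrix.transpose (flip p) * (Matrix.transpose (refl n) * J p * refl n) * flip p := by
          rw [Matrix.transpose_mul]; simp only [Matrix.mul_assoc]
      _ = J p := by rw [refl_form n hnn0, flip_form]
  · intro i
    rw [mat_mkSO, flip, Matrix.mul_diagonal]
    have h01 : (0 : Fin (p + 1)) ≠ 1 := by
      obtain ⟨p, rfl⟩ : ∃ m, p = m + 1 := ⟨p - 1, by omega⟩
      simp
    rw [if_neg h01, mul_one, refl, Matrix.sub_apply, Matrix.smul_apply, Matrix.vecMulVec_apply,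
      smul_eq_mul]
    have h1 : (J p *ᵥ n) 0 = z 0 - 1 := by
      rw [J, Matrix.mulVec_diagonal, hn, he]; simp
    rw [h1, hnn]
    have h2 : n i = z i - (1 : Matrix (Fin (p + 1)) (Fin (p + 1)) ℝ) i 0 := by
      rw [hn, he, Pi.sub_apply, Matrix.one_apply, Pi.single_apply]
    have h3 : (2 - 2 * z 0) ≠ 0 := by rw [← hnn]; exact hnn0
    rw [h2]
    field_simp
    ring

/-- One step of the reduction. -/
theorem reduce (hp : 1 ≤ p) (g : SO1 p) (hg : 2 < |mat g 0 0|) :
    ∃ b ∈ ball p 2, |mat (b⁻¹ * g) 0 0| ≤ 2 / 3 * |mat g 0 0| := by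
  set x := mat g 0 0 with hx
  set r := Real.sqrt (x ^ 2 - 1) with hr
  have hx4 : 4 < x ^ 2 := by
    rw [← sq_abs]; nlinarith
  have hr0 : 0 < x ^ 2 - 1 := by linarith
  have hrpos : 0 < r := Real.sqrt_pos.2 hr0
  have hr2 : r ^ 2 = x ^ 2 - 1 := Real.sq_sqrt hr0.le
  have hc := col_zero g
  rw [← hx] at hc
  set σ : ℝ := if 0 < x then 1 else -1 with hσ
  have hσx : σ * x = |x| := by
    rw [hσ]
    split_ifs with h
    · rw [abs_of_pos h, one_mul]
    · rw [abs_of_nonpos (not_lt.1 h)]; ring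
  have hσ2 : σ ^ 2 = 1 := by rw [hσ]; split_ifs <;> norm_num
  have hσ' : |σ| = 1 := by rw [hσ]; split_ifs <;> norm_num
  let z : Fin (p + 1) → ℝ := Fin.cons (5 / 4 * σ) (fun i => 3 / 4 / r * mat g i.succ 0)
  have hform : ∀ y : Fin (p + 1) → ℝ, z ⬝ᵥ (J p *ᵥ y) =
      5 / 4 * σ * y 0 - ∑ i : Fin p, 3 / 4 / r * mat g i.succ 0 * y i.succ := by
    intro y
    rw [dotProduct, Fin.sum_univ_succ]
    simp only [J_mulVec, z, Fin.cons_zero, Fin.cons_succ, if_true, one_mul,
      Fin.succ_ne_zero, if_false, neg_mul, mul_neg, Finset.sum_neg_distrib]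
    ring
  have hz : z ⬝ᵥ (J p *ᵥ z) = 1 := by
    rw [hform]
    simp only [z, Fin.cons_zero, Fin.cons_succ]
    have h1 : ∑ i : Fin p, 3 / 4 / r * mat g i.succ 0 * (3 / 4 / r * mat g i.succ 0) =
        (3 / 4 / r) ^ 2 * ∑ i : Fin p, mat g i.succ 0 ^ 2 := by
      rw [Finset.mul_sum]
      refine Finset.sum_congr rfl fun i _ => by ring
    rw [h1, show ∑ i : Fin p, mat g i.succ 0 ^ 2 = r ^ 2 by rw [hr2]; linarith]
    have h2 : (3 / 4 / r) ^ 2 * r ^ 2 = 9 / 16 := by
      field_simp; norm_num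
    rw [h2]
    nlinarith
  have hz0 : z 0 ≠ 1 := by
    simp only [z, Fin.cons_zero]
    rw [hσ]
    split_ifs <;> norm_num
  obtain ⟨b, hb⟩ := exists_map hp z hz hz0
  refine ⟨b, ?_, ?_⟩
  · change |mat b 0 0| ≤ 2
    rw [hb 0]
    simp only [z, Fin.cons_zero]
    rw [abs_mul, hσ']; norm_num
  · -- `(b⁻¹ g)₀₀ = (b e₀, g e₀)`
    have h1 : Matrix.transpose (mat b) * J p * mat g = J p * mat (b⁻¹ * g) := by
      have h2 : mat g = mat b * mat (b⁻¹ * g) := by
        rw [← mat_mul, mul_inv_cancel_left]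
      conv_lhs => rw [h2]
      rw [← Matrix.mul_assoc, mat_form]
    have h2 : (J p * mat (b⁻¹ * g)) 0 0 = mat (b⁻¹ * g) 0 0 := J_mul_zero _ _
    have h3 : (Matrix.transpose (mat b) * J p * mat g) 0 0 =
        z ⬝ᵥ (J p *ᵥ (fun i => mat g i 0)) := by
      rw [Matrix.mul_assoc, Matrix.mul_apply]
      rw [dotProduct]
      refine Finset.sum_congr rfl fun i _ => ?_
      rw [Matrix.transpose_apply, hb i]
      rfl
    rw [← h2, ← h1, h3, hform]
    have h4 : ∑ i : Fin p, 3 / 4 / r * mat g i.succ 0 * mat g i.succ 0 = 3 / 4 * r := by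
      have h5 : ∑ i : Fin p, 3 / 4 / r * mat g i.succ 0 * mat g i.succ 0 =
          (3 / 4 / r) * ∑ i : Fin p, mat g i.succ 0 ^ 2 := by
        rw [Finset.mul_sum]
        refine Finset.sum_congr rfl fun i _ => by ring
      rw [h5, show ∑ i : Fin p, mat g i.succ 0 ^ 2 = r ^ 2 by rw [hr2]; linarith]
      field_simp
    rw [h4, ← hx, mul_assoc, hσx]
    have hax : 2 < |x| := hg
    have h6 : r ^ 2 = |x| ^ 2 - 1 := by rw [sq_abs]; exact hr2
    have h7 : r ≤ |x| := by
      apply le_of_sq_le_sq _ (abs_nonneg _)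
      rw [h6]; linarith
    have h8 : 7 / 9 * |x| ≤ r := by
      apply le_of_sq_le_sq _ hrpos.le
      rw [h6]; nlinarith
    rw [abs_le]
    constructor <;> linarith

theorem exists_list_aux (hp : 1 ≤ p) (n : ℕ) : ∀ g : SO1 p, |mat g 0 0| ≤ 2 * (3 / 2 : ℝ) ^ n →
    ∃ l : List (SO1 p), (∀ b ∈ l, b ∈ ball p 2) ∧ l.prod = g := by
  induction n with
  | zero =>
    intro g hg
    refine ⟨[g], ?_, by simp⟩
    intro b hb
    rw [List.mem_singleton.1 hb]
    change |mat g 0 0| ≤ 2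
    simpa using hg
  | succ n ih =>
    intro g hg
    by_cases h : 2 < |mat g 0 0|
    · obtain ⟨b, hb, hb'⟩ := reduce hp g h
      obtain ⟨l, hl, hl'⟩ := ih (b⁻¹ * g) (by
        rw [pow_succ] at hg
        linarith)
      refine ⟨b :: l, ?_, by rw [List.prod_cons, hl', mul_inv_cancel_left]⟩
      intro c hc
      rcases List.mem_cons.1 hc with rfl | hc
      · exact hb
      · exact hl c hc
    · refine ⟨[g], ?_, by simp⟩
      intro b hb
      rw [List.mem_singleton.1 hb]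
      exact not_lt.1 h

theorem exists_list (hp : 1 ≤ p) (g : SO1 p) :
    ∃ l : List (SO1 p), (∀ b ∈ l, b ∈ ball p 2) ∧ l.prod = g := by
  obtain ⟨n, hn⟩ := pow_unbounded_of_one_lt |mat g 0 0| (by norm_num : (1 : ℝ) < 3 / 2)
  refine exists_list_aux hp n g ?_
  have : (0 : ℝ) < (3 / 2 : ℝ) ^ n := by positivity
  linarith

end Pool.Agent.H105R2.Lat
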