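import Pool.Agent.H105R2.Lat.A

/-!
# Uniform lattices: compact fundamental sets, finiteness, finite generation
-/

set_option autoImplicit false

namespace Pool.Agent.H105R2.Lat

open Matrix Topology

variable {p q : ℕ}

/-- the product of two balls -/
def ball2 (p q : ℕ) (C : ℝ) : Set (HH p q) := ball p C ×ˢ ball q C

theorem isCompact_ball2 (C : ℝ) : IsCompact (ball2 p q C) :=
  (isCompact_ball C).prod (isCompact_ball C)

theorem one_mem_ball2 : (1 : HH p q) ∈ ball2 p q 2 := by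
  constructor
  · change |(1 : Matrix _ _ ℝ) 0 0| ≤ 2
    simp
  · change |(1 : Matrix _ _ ℝ) 0 0| ≤ 2
    simp

theorem exists_list2 (hp : 1 ≤ p) (hq : 1 ≤ q) (h : HH p q) :
    ∃ l : List (HH p q), (∀ b ∈ l, b ∈ ball2 p q 2) ∧ l.prod = h := by
  obtain ⟨l1, h1, h1'⟩ := exists_list hp h.1
  obtain ⟨l2, h2, h2'⟩ := exists_list hq h.2
  refine ⟨l1.map (fun a => (a, 1)) ++ l2.map (fun b => (1, b)), ?_, ?_⟩
  · intro b hb
    rcases List.mem_append.1 hb with hb | hb
    · obtain ⟨a, ha, rfl⟩ := List.mem_map.1 hb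
      exact ⟨h1 a ha, (one_mem_ball2 (p := p) (q := q)).2⟩
    · obtain ⟨a, ha, rfl⟩ := List.mem_map.1 hb
      exact ⟨(one_mem_ball2 (p := p) (q := q)).1, h2 a ha⟩
  · rw [List.prod_append]
    have e1 : ∀ l : List (SO1 p), (l.map (fun a => ((a, 1) : HH p q))).prod = (l.prod, 1) := by
      intro l
      induction l with
      | nil => rfl
      | cons a l ih => rw [List.map_cons, List.prod_cons, ih, List.prod_cons]; ext1 <;> simp
    have e2 : ∀ l : List (SO1 q), (l.map (fun a => ((1, a) : HH p q))).prod = (1, l.prod) := by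
      intro l
      induction l with
      | nil => rfl
      | cons a l ih => rw [List.map_cons, List.prod_cons, ih, List.prod_cons]; ext1 <;> simp
    rw [e1, e2, h1', h2']
    ext1 <;> simp

variable {Γ : Subgroup (HH p q)}

theorem exists_compact (hΓ : IsUniformLattice Γ) :
    ∃ K : Set (HH p q), IsCompact K ∧ ∀ h : HH p q, ∃ γ ∈ Γ, ∃ d ∈ K, h = γ * d := by
  have := hΓ.cocompact
  let π : HH p q → Quotient (QuotientGroup.rightRel Γ) := Quotient.mk _
  have hopen : IsOpenMap π := isOpenMap_quotient_mk'_mul (Γ := Γ) (T := HH p q)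
  have hc1 : Continuous fun h : HH p q => |mat h.1 0 0| :=
    ((continuous_mat.matrix_elem 0 0).comp continuous_fst).abs
  have hc2 : Continuous fun h : HH p q => |mat h.2 0 0| :=
    ((continuous_mat.matrix_elem 0 0).comp continuous_snd).abs
  let U : ℕ → Set (HH p q) := fun n => {h | |mat h.1 0 0| < n} ∩ {h | |mat h.2 0 0| < n}
  have hU : ∀ n, IsOpen (U n) := fun n =>
    (isOpen_lt hc1 continuous_const).inter (isOpen_lt hc2 continuous_const)
  have hmono : ∀ m n, m ≤ n → U m ⊆ U n := by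
    intro m n hmn h hh
    have : (m : ℝ) ≤ n := by exact_mod_cast hmn
    exact ⟨lt_of_lt_of_le hh.1 this, lt_of_lt_of_le hh.2 this⟩
  obtain ⟨n, hn⟩ := isCompact_univ.elim_directed_cover (fun n => π '' U n)
    (fun n => hopen _ (hU n)) (by
      intro x _
      obtain ⟨h, rfl⟩ := Quotient.exists_rep x
      obtain ⟨n, hn⟩ := exists_nat_gt (max |mat h.1 0 0| |mat h.2 0 0|)
      refine Set.mem_iUnion.2 ⟨n, h, ⟨?_, ?_⟩, rfl⟩
      · exact lt_of_le_of_lt (le_max_left _ _) hn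
      · exact lt_of_le_of_lt (le_max_right _ _) hn)
    (by
      intro m n
      exact ⟨max m n, Set.image_mono (hmono _ _ (le_max_left _ _)),
        Set.image_mono (hmono _ _ (le_max_right _ _))⟩)
  refine ⟨ball2 p q n, isCompact_ball2 _, fun h => ?_⟩
  obtain ⟨d, hd, hd'⟩ := hn (Set.mem_univ (π h))
  have h1 : (QuotientGroup.rightRel Γ) d h := Quotient.exact hd'
  rw [QuotientGroup.rightRel_apply] at h1
  exact ⟨h * d⁻¹, h1, d, ⟨(show |mat d.1 0 0| ≤ n from hd.1.le),
    (show |mat d.2 0 0| ≤ n from hd.2.le)⟩, by simp⟩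

theorem finite_of_compact (hΓ : IsUniformLattice Γ) {C : Set (HH p q)} (hC : IsCompact C) :
    {γ : Γ | (γ : HH p q) ∈ C}.Finite := by
  have := hΓ.discrete
  have h1 : IsClosed (Γ : Set (HH p q)) := Subgroup.isClosed_of_discrete
  have h2 : IsCompact ((Subtype.val : Γ → HH p q) ⁻¹' C) :=
    (IsClosed.isClosedEmbedding_subtypeVal h1).isCompact_preimage hC
  exact isCompact_iff_finite.1 h2

theorem exists_generators (hp : 1 ≤ p) (hq : 1 ≤ q) (hΓ : IsUniformLattice Γ) :
    ∃ S : Finset Γ, Subgroup.closure (S : Set Γ) = ⊤ := by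
  classical
  obtain ⟨K, hK, hK'⟩ := exists_compact hΓ
  let K1 : Set (HH p q) := insert 1 K
  have hK1 : IsCompact K1 := hK.insert 1
  have hC : IsCompact ((fun x : (HH p q × HH p q) × HH p q => x.1.1 * x.1.2 * x.2⁻¹) ''
      ((K1 ×ˢ ball2 p q 2) ×ˢ K1)) := by
    refine ((hK1.prod (isCompact_ball2 2)).prod hK1).image ?_
    fun_prop
  have hfin := finite_of_compact hΓ hC
  set S := hfin.toFinset with hS
  refine ⟨S, ?_⟩
  have hmemS : ∀ γ : Γ, ∀ d ∈ K1, ∀ c ∈ ball2 p q 2, ∀ d' ∈ K1, d * c = γ * d' →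
      γ ∈ Subgroup.closure (S : Set Γ) := by
    intro γ d hd c hc d' hd' h
    apply Subgroup.subset_closure
    rw [hS, Set.Finite.coe_toFinset]
    refine ⟨((d, c), d'), ⟨⟨hd, hc⟩, hd'⟩, ?_⟩
    change d * c * d'⁻¹ = γ
    rw [h, mul_inv_cancel_right]
  have key : ∀ l : List (HH p q), (∀ b ∈ l, b ∈ ball2 p q 2) → ∀ d ∈ K1, ∀ γ : Γ, ∀ d' ∈ K1,
      d * l.prod = γ * d' → γ ∈ Subgroup.closure (S : Set Γ) := by
    intro l
    induction l with
    | nil =>
      intro _ d hd γ d' hd' h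
      exact hmemS γ d hd 1 one_mem_ball2 d' hd' h
    | cons c l ih =>
      intro hl d hd γ d' hd' h
      obtain ⟨γ₁, hγ₁, d₁, hd₁, h₁⟩ := hK' (d * c)
      have h2 := hmemS ⟨γ₁, hγ₁⟩ d hd c (hl c (by simp)) d₁ (Set.mem_insert_of_mem _ hd₁) h₁
      have h3 := ih (fun b hb => hl b (by simp [hb])) d₁ (Set.mem_insert_of_mem _ hd₁)
        (⟨γ₁, hγ₁⟩⁻¹ * γ) d' hd' (by
          have h4 : γ₁ * (d₁ * l.prod) = γ * d' := by
            rw [← h, List.prod_cons, ← mul_assoc, ← mul_assoc, h₁]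
          change d₁ * l.prod = (γ₁⁻¹ * γ) * d'
          rw [mul_assoc, ← h4, inv_mul_cancel_left])
      have h5 := mul_mem h2 h3
      rwa [mul_inv_cancel_left] at h5
  rw [eq_top_iff]
  intro γ _
  obtain ⟨l, hl, hl'⟩ := exists_list2 hp hq (γ : HH p q)
  exact key l hl 1 (Set.mem_insert _ _) γ 1 (Set.mem_insert _ _) (by rw [hl', one_mul, mul_one])

end Pool.Agent.H105R2.Lat
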