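import Pool.Agent.H105R2.Lat.B

/-!
# Vanishing of the cohomology of uniform lattices with coefficients in `Hom(V₁, V₂)`
-/

set_option autoImplicit false

namespace Pool.Agent.H105R2.Lat

open Matrix Topology

attribute [local instance] Matrix.normedAddCommGroup Matrix.normedSpace

variable {p q : ℕ}

/-- the action of `SO(1,p) × SO(1,q)` on `Hom(V₁, V₂)` -/
def act (h : HH p q) : Matrix (Fin (q + 1)) (Fin (p + 1)) ℝ →ₗ[ℝ]
    Matrix (Fin (q + 1)) (Fin (p + 1)) ℝ where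
  toFun X := mat h.2 * X * mat h.1⁻¹
  map_add' X Y := by rw [Matrix.mul_add, Matrix.add_mul]
  map_smul' c X := by rw [Matrix.mul_smul, Matrix.smul_mul]; rfl

theorem act_apply (h : HH p q) (X : Matrix (Fin (q + 1)) (Fin (p + 1)) ℝ) :
    act h X = mat h.2 * X * mat h.1⁻¹ := rfl

theorem act_mul (g h : HH p q) (X : Matrix (Fin (q + 1)) (Fin (p + 1)) ℝ) :
    act (g * h) X = act g (act h X) := by
  simp only [act_apply, Prod.fst_mul, Prod.snd_mul, _root_.mul_inv_rev, mat_mul, Matrix.mul_assoc]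

theorem act_one (X : Matrix (Fin (q + 1)) (Fin (p + 1)) ℝ) : act (1 : HH p q) X = X := by
  simp only [act_apply, Prod.fst_one, Prod.snd_one, inv_one, mat_one, Matrix.one_mul,
    Matrix.mul_one]

theorem act_inv_act (g : HH p q) (X : Matrix (Fin (q + 1)) (Fin (p + 1)) ℝ) :
    act g⁻¹ (act g X) = X := by rw [← act_mul, inv_mul_cancel, act_one]

theorem act_act_inv (g : HH p q) (X : Matrix (Fin (q + 1)) (Fin (p + 1)) ℝ) :
    act g (act g⁻¹ X) = X := by rw [← act_mul, mul_inv_cancel, act_one]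

theorem continuous_act (X : Matrix (Fin (q + 1)) (Fin (p + 1)) ℝ) :
    Continuous fun h : HH p q => act h⁻¹ X := by
  simp only [act_apply]
  have h1 : Continuous fun h : HH p q => mat (h⁻¹).2 :=
    continuous_mat.comp (continuous_snd.comp continuous_inv)
  have h2 : Continuous fun h : HH p q => mat (h⁻¹).1⁻¹ :=
    continuous_mat.comp (continuous_inv.comp (continuous_fst.comp continuous_inv))
  exact (h1.matrix_mul continuous_const).matrix_mul h2

/-- bounded functions -/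
def Bdd {E : Type} [SeminormedAddCommGroup E] (u : HH p q → E) : Prop := ∃ C, ∀ h, ‖u h‖ ≤ C

theorem Bdd.linear {E E' : Type} [NormedAddCommGroup E] [NormedAddCommGroup E']
    [NormedSpace ℝ E] [NormedSpace ℝ E'] [FiniteDimensional ℝ E] (L : E →ₗ[ℝ] E')
    {u : HH p q → E} (hu : Bdd u) (k : HH p q → HH p q) : Bdd fun h => L (u (k h)) := by
  obtain ⟨C, hC⟩ := hu
  refine ⟨‖LinearMap.toContinuousLinearMap L‖ * C, fun h => ?_⟩
  exact ((LinearMap.toContinuousLinearMap L).le_opNorm _).trans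
    (mul_le_mul_of_nonneg_left (hC _) (norm_nonneg _))

theorem Bdd.sub {E : Type} [SeminormedAddCommGroup E] {u v : HH p q → E} (hu : Bdd u)
    (hv : Bdd v) : Bdd fun h => u h - v h := by
  obtain ⟨C, hC⟩ := hu
  obtain ⟨D, hD⟩ := hv
  exact ⟨C + D, fun h => (norm_sub_le _ _).trans (add_le_add (hC h) (hD h))⟩

theorem Bdd.add {E : Type} [SeminormedAddCommGroup E] {u v : HH p q → E} (hu : Bdd u)
    (hv : Bdd v) : Bdd fun h => u h + v h := by
  obtain ⟨C, hC⟩ := hu
  obtain ⟨D, hD⟩ := hv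
  exact ⟨C + D, fun h => (norm_add_le _ _).trans (add_le_add (hC h) (hD h))⟩

/-- multiplication by a row vector on the left -/
def rowL (l : Fin (q + 1) → ℝ) : Matrix (Fin (q + 1)) (Fin (p + 1)) ℝ →ₗ[ℝ]
    (Fin (p + 1) → ℝ) where
  toFun X := l ᵥ* X
  map_add' X Y := by rw [Matrix.vecMul_add]
  map_smul' c X := by rw [Matrix.vecMul_smul]; rfl

/-- multiplication by a column vector on the right -/
def colL (x : Fin (p + 1) → ℝ) : Matrix (Fin (q + 1)) (Fin (p + 1)) ℝ →ₗ[ℝ]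
    (Fin (q + 1) → ℝ) where
  toFun X := X *ᵥ x
  map_add' X Y := by rw [Matrix.add_mulVec]
  map_smul' c X := by rw [Matrix.smul_mulVec]; rfl

/-! ### boosts -/

theorem vecMul_refl (n l : Fin (p + 1) → ℝ) :
    l ᵥ* refl n = l - (2 / (n ⬝ᵥ (J p *ᵥ n)) * (l ⬝ᵥ n)) • (J p *ᵥ n) := by
  rw [refl, Matrix.vecMul_sub, Matrix.vecMul_one, Matrix.vecMul_smul, Matrix.vecMul_vecMulVec,
    smul_smul]

/-- The boosts: elements of `SO(1,p)` with a given isotropic eigenvector. -/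
theorem exists_boost (i : Fin p) (ε : ℝ) (hε : ε ^ 2 = 1) :
    ∃ b : SO1 p, (Pi.single 0 1 + ε • Pi.single i.succ 1 : Fin (p + 1) → ℝ) ᵥ* mat b =
      (2 : ℝ) • (Pi.single 0 1 + ε • Pi.single i.succ 1 : Fin (p + 1) → ℝ) := by
  set e : Fin (p + 1) → ℝ := Pi.single 0 1 with he
  set f : Fin (p + 1) → ℝ := Pi.single i.succ 1 with hf
  have hJe : J p *ᵥ e = e := by
    funext k
    rw [J_mulVec, he]
    by_cases hk : k = 0
    · subst hk; simp
    · simp [hk]
  have hJf : J p *ᵥ f = -f := by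
    funext k
    rw [J_mulVec, hf]
    by_cases hk : k = i.succ
    · subst hk; simp [Fin.succ_ne_zero]
    · simp [hk]
  have hee : e ⬝ᵥ e = 1 := by rw [he]; simp
  have hef : e ⬝ᵥ f = 0 := by
    rw [he, hf, single_dotProduct]
    simp
  have hfe : f ⬝ᵥ e = 0 := by rw [dotProduct_comm]; exact hef
  have hff : f ⬝ᵥ f = 1 := by rw [hf]; simp
  set n : Fin (p + 1) → ℝ := (3 : ℝ) • e + ε • f with hn
  have hJn : J p *ᵥ n = (3 : ℝ) • e - ε • f := by
    rw [hn, Matrix.mulVec_add, Matrix.mulVec_smul, Matrix.mulVec_smul, hJe, hJf, smul_neg,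
      sub_eq_add_neg]
  have hnn : n ⬝ᵥ (J p *ᵥ n) = 8 := by
    rw [hJn, hn]
    simp only [add_dotProduct, dotProduct_sub, smul_dotProduct, dotProduct_smul, hee, hef, hfe,
      hff, smul_eq_mul]
    nlinarith
  have hen : e ⬝ᵥ (J p *ᵥ e) = 1 := by rw [hJe, hee]
  have hln : (e + ε • f) ⬝ᵥ n = 4 := by
    rw [hn]
    simp only [add_dotProduct, dotProduct_add, smul_dotProduct, dotProduct_smul, hee, hef, hfe,
      hff, smul_eq_mul]
    nlinarith
  have h1 : (e + ε • f) ᵥ* refl n = (-2 : ℝ) • e + (2 * ε) • f := by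
    rw [vecMul_refl, hnn, hln, hJn]
    funext k
    simp only [Pi.add_apply, Pi.sub_apply, Pi.smul_apply, smul_eq_mul]
    ring
  have hl2 : ((-2 : ℝ) • e + (2 * ε) • f) ⬝ᵥ e = -2 := by
    simp only [add_dotProduct, smul_dotProduct, hee, hfe, smul_eq_mul]
    ring
  have h2 : ((-2 : ℝ) • e + (2 * ε) • f) ᵥ* refl e = (2 : ℝ) • (e + ε • f) := by
    rw [vecMul_refl, hen, hl2, hJe]
    funext k
    simp only [Pi.add_apply, Pi.sub_apply, Pi.smul_apply, smul_eq_mul]
    ring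
  have hnn0 : n ⬝ᵥ (J p *ᵥ n) ≠ 0 := by rw [hnn]; norm_num
  have hen0 : e ⬝ᵥ (J p *ᵥ e) ≠ 0 := by rw [hen]; norm_num
  refine ⟨mkSO (refl n * refl e) ?_ ?_, ?_⟩
  · rw [Matrix.det_mul, refl_det n hnn0, refl_det e hen0]; norm_num
  · calc Matrix.transpose (refl n * refl e) * J p * (refl n * refl e)
        = Matrix.transpose (refl e) * (Matrix.transpose (refl n) * J p * refl n) * refl e := by
          rw [Matrix.transpose_mul]; simp only [Matrix.mul_assoc]
      _ = J p := by rw [refl_form n hnn0, refl_form e hen0]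
  · rw [mat_mkSO, ← Matrix.vecMul_vecMul, h1, h2]

theorem boost_col (b : SO1 p) (l : Fin (p + 1) → ℝ) (h : l ᵥ* mat b = (2 : ℝ) • l) :
    mat b⁻¹ *ᵥ (J p *ᵥ l) = (2 : ℝ) • (J p *ᵥ l) := by
  have h1 : mat b *ᵥ (J p *ᵥ (Matrix.transpose (mat b) *ᵥ l)) = J p *ᵥ l := by
    rw [Matrix.mulVec_mulVec, Matrix.mulVec_mulVec, mat_form']
  rw [Matrix.mulVec_transpose, h, Matrix.mulVec_smul, Matrix.mulVec_smul] at h1
  have h2 : mat b⁻¹ *ᵥ ((2 : ℝ) • (mat b *ᵥ (J p *ᵥ l))) = (2 : ℝ) • (J p *ᵥ l) := by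
    rw [Matrix.mulVec_smul, Matrix.mulVec_mulVec, mat_inv_mul, Matrix.one_mulVec]
  rwa [h1] at h2

/-- There are no bounded `SO(1,p)`-invariant functions. -/
theorem no_invariants (hp : 1 ≤ p) (v : HH p q → Matrix (Fin (q + 1)) (Fin (p + 1)) ℝ)
    (hv : Bdd v) (h : ∀ (a : SO1 p) (h : HH p q), act (a, 1) (v (h * (a, 1))) = v h) :
    ∀ h, v h = 0 := by
  have key : ∀ (a : SO1 p) (l : Fin (p + 1) → ℝ), l ᵥ* mat a = (2 : ℝ) • l →
      ∀ g, v g *ᵥ (J p *ᵥ l) = 0 := by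
    intro a l hal g
    obtain ⟨C, hC⟩ := hv.linear (colL (q := q) (J p *ᵥ l)) id
    have h1 : ∀ g, v g *ᵥ (J p *ᵥ l) = (2 : ℝ) • (v (g * (a, 1)) *ᵥ (J p *ᵥ l)) := by
      intro g
      rw [← h a g, act_apply]
      change (1 * v (g * (a, 1)) * mat a⁻¹) *ᵥ _ = _
      rw [Matrix.one_mul, ← Matrix.mulVec_mulVec, boost_col a l hal, Matrix.mulVec_smul]
    have h2 : ∀ (k : ℕ) (g : HH p q), ‖v g *ᵥ (J p *ᵥ l)‖ ≤ (1 / 2) ^ k * C := by
      intro k
      induction k with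
      | zero =>
        intro g
        rw [pow_zero, one_mul]
        exact hC g
      | succ k ih =>
        intro g
        have h3 := h1 (g * (a, 1)⁻¹)
        rw [inv_mul_cancel_right] at h3
        have h4 := ih (g * (a, 1)⁻¹)
        rw [h3, norm_smul, show ‖(2 : ℝ)‖ = 2 by norm_num] at h4
        rw [pow_succ]
        linarith
    have h3 : Filter.Tendsto (fun k : ℕ => (1 / 2 : ℝ) ^ k * C) Filter.atTop (𝓝 (0 * C)) :=
      (tendsto_pow_atTop_nhds_zero_of_lt_one (by norm_num) (by norm_num)).mul_const C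
    have h4 : ‖v g *ᵥ (J p *ᵥ l)‖ ≤ 0 * C := ge_of_tendsto' h3 fun k => h2 k g
    rw [zero_mul] at h4
    exact norm_le_zero_iff.1 h4
  intro g
  have key2 : ∀ (i : Fin p) (ε : ℝ), ε ^ 2 = 1 → ∀ k,
      v g k 0 - ε * v g k i.succ = 0 := by
    intro i ε hε k
    obtain ⟨a, ha⟩ := exists_boost i ε hε
    have h1 := congrFun (key a _ ha g) k
    rw [Matrix.mulVec_add, Matrix.mulVec_smul, Matrix.mulVec_add, Matrix.mulVec_smul] at h1
    have e1 : J p *ᵥ (Pi.single 0 1 : Fin (p + 1) → ℝ) = Pi.single 0 1 := by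
      funext k
      rw [J_mulVec]
      by_cases hk : k = 0
      · subst hk; simp
      · simp [hk]
    have e2 : J p *ᵥ (Pi.single i.succ 1 : Fin (p + 1) → ℝ) = -Pi.single i.succ 1 := by
      funext k
      rw [J_mulVec]
      by_cases hk : k = i.succ
      · subst hk; simp [Fin.succ_ne_zero]
      · simp [hk]
    rw [e1, e2, Matrix.mulVec_neg, Matrix.mulVec_single_one, Matrix.mulVec_single_one] at h1
    simp only [Pi.add_apply, Pi.smul_apply, Pi.neg_apply, Matrix.col_apply, smul_eq_mul,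
      Pi.zero_apply] at h1
    linarith
  ext k j
  have h0 : v g k 0 = 0 := by
    have h1 := key2 ⟨0, hp⟩ 1 (by norm_num) k
    have h2 := key2 ⟨0, hp⟩ (-1) (by norm_num) k
    linarith
  refine Fin.cases ?_ (fun j => ?_) j
  · exact h0
  · have h1 := key2 j 1 (by norm_num) k
    rw [h0] at h1
    change v g k j.succ = 0
    linarith

end Pool.Agent.H105R2.Lat
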