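import Pool.Agent.H105R2.Lat.C

/-!
# Vanishing of the cohomology of uniform lattices with coefficients in `Hom(V₁, V₂)`
-/

set_option autoImplicit false

namespace Pool.Agent.H105R2.Lat

open Matrix Topology

attribute [local instance] Matrix.normedAddCommGroup Matrix.normedSpace

variable {p q : ℕ} {Γ : Subgroup (HH p q)}

/-- The data coming from a cocycle: a function `f` whose right differences are bounded and
left invariant. -/
theorem exists_primitive (hΓ : IsUniformLattice Γ)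
    (c : Γ → Matrix (Fin (q + 1)) (Fin (p + 1)) ℝ)
    (hc : ∀ γ γ', c (γ * γ') = c γ + act γ (c γ')) :
    ∃ f : HH p q → Matrix (Fin (q + 1)) (Fin (p + 1)) ℝ,
      (∀ (γ : Γ) (h : HH p q), f (γ * h) = f h + act ((γ : HH p q) * h)⁻¹ (c γ)) ∧
      ∀ g : HH p q, Bdd fun h => act g (f (h * g)) - f h := by
  obtain ⟨K, hK, hK'⟩ := exists_compact hΓ
  have h1 : ∀ x : Quotient (QuotientGroup.rightRel Γ), ∃ d ∈ K, Quotient.mk _ d = x := by
    intro x
    obtain ⟨h, rfl⟩ := Quotient.exists_rep x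
    obtain ⟨γ, hγ, d, hd, hh⟩ := hK' h
    refine ⟨d, hd, Quotient.sound ?_⟩
    change (QuotientGroup.rightRel Γ) d h
    rw [QuotientGroup.rightRel_apply, hh, mul_inv_cancel_right]
    exact hγ
  choose σ hσK hσ using h1
  let r : HH p q → HH p q := fun h => σ (Quotient.mk _ h)
  have hr : ∀ h, h * (r h)⁻¹ ∈ Γ := by
    intro h
    have h2 : (QuotientGroup.rightRel Γ) (r h) h := Quotient.exact (hσ (Quotient.mk _ h))
    rwa [QuotientGroup.rightRel_apply] at h2
  have hrγ : ∀ (γ : Γ) h, r (γ * h) = r h := by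
    intro γ h
    change σ _ = σ _
    congr 1
    apply Quotient.sound
    change (QuotientGroup.rightRel Γ) ((γ : HH p q) * h) h
    rw [QuotientGroup.rightRel_apply]
    have : h * ((γ : HH p q) * h)⁻¹ = (γ : HH p q)⁻¹ := by group
    rw [this]
    exact Γ.inv_mem γ.2
  have hrr : ∀ h, r (r h) = r h := by
    intro h
    change σ _ = σ _
    congr 1
    exact hσ _
  let gam : HH p q → Γ := fun h => ⟨h * (r h)⁻¹, hr h⟩
  have hgam : ∀ (γ : Γ) h, gam (γ * h) = γ * gam h := by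
    intro γ h
    apply Subtype.ext
    change (γ : HH p q) * h * (r (γ * h))⁻¹ = γ * (h * (r h)⁻¹)
    rw [hrγ, mul_assoc]
  let f : HH p q → Matrix (Fin (q + 1)) (Fin (p + 1)) ℝ := fun h => act h⁻¹ (c (gam h))
  have hf : ∀ (γ : Γ) (h : HH p q), f (γ * h) = f h + act ((γ : HH p q) * h)⁻¹ (c γ) := by
    intro γ h
    change act ((γ : HH p q) * h)⁻¹ (c (gam (γ * h))) = act h⁻¹ (c (gam h)) + _
    rw [hgam, hc, map_add, ← act_mul, _root_.mul_inv_rev, inv_mul_cancel_right]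
    exact add_comm _ _
  have hc1 : c 1 = 0 := by
    have h2 := hc 1 1
    rw [one_mul] at h2
    have h3 : act ((1 : Γ) : HH p q) (c 1) = c 1 := by
      rw [Subgroup.coe_one, act_one]
    rw [h3] at h2
    exact left_eq_add.1 h2
  have hfr : ∀ h, f (r h) = 0 := by
    intro h
    have : gam (r h) = 1 := by
      apply Subtype.ext
      change r h * (r (r h))⁻¹ = 1
      rw [hrr, mul_inv_cancel]
    change act _ (c (gam (r h))) = 0
    rw [this, hc1, map_zero]
  have hfd : ∀ h, f h = act h⁻¹ (c (gam h)) := fun _ => rfl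
  clear_value f
  refine ⟨f, hf, fun g => ?_⟩
  -- the difference is left invariant
  have hinv : ∀ (γ : Γ) h, act g (f (γ * h * g)) - f (γ * h) = act g (f (h * g)) - f h := by
    intro γ h
    rw [mul_assoc, hf, hf, map_add, ← act_mul]
    have : g * ((γ : HH p q) * (h * g))⁻¹ = ((γ : HH p q) * h)⁻¹ := by group
    rw [this]
    abel
  -- the finite set
  have hC : IsCompact ((fun x : HH p q × HH p q => x.1 * g * x.2⁻¹) '' (K ×ˢ K)) := by
    refine (hK.prod hK).image ?_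
    fun_prop
  have hfin := finite_of_compact hΓ hC
  have hT : IsCompact (⋃ γ ∈ {γ : Γ | (γ : HH p q) ∈
      ((fun x : HH p q × HH p q => x.1 * g * x.2⁻¹) '' (K ×ˢ K))},
      (fun d : HH p q => act d⁻¹ (c γ)) '' K) :=
    hfin.isCompact_biUnion fun γ _ => hK.image (continuous_act (c γ))
  obtain ⟨C, hC'⟩ := hT.isBounded.exists_norm_le
  refine ⟨C, fun h => ?_⟩
  have e1 : h = (gam h : HH p q) * r h := by
    change h = h * (r h)⁻¹ * r h
    rw [inv_mul_cancel_right]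
  have e2 : act g (f (h * g)) - f h = act (r h)⁻¹ (c (gam (r h * g))) := by
    have h2 := hinv (gam h) (r h)
    rw [← e1] at h2
    rw [h2, hfr, sub_zero]
    rw [hfd, ← act_mul]
    congr 1
    group
  change ‖act g (f (h * g)) - f h‖ ≤ C
  rw [e2]
  apply hC'
  refine Set.mem_biUnion (x := gam (r h * g)) ?_ ⟨r h, hσK _, rfl⟩
  exact ⟨(r h, r (r h * g)), ⟨hσK _, hσK _⟩, rfl⟩

/-- Solving the cohomological equation in the direction of a row vector. -/
theorem solve_row (α : HH p q → HH p q → Matrix (Fin (q + 1)) (Fin (p + 1)) ℝ)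
    (hα : ∀ g g' h, α (g * g') h = act g (α g' (h * g)) + α g h)
    (hb : ∀ g, Bdd (α g)) (hinv : ∀ g (γ : Γ) h, α g (γ * h) = α g h)
    (b : SO1 q) (l : Fin (q + 1) → ℝ) (hl : l ᵥ* mat b = (2 : ℝ) • l) :
    ∃ φ : HH p q → (Fin (p + 1) → ℝ), Bdd φ ∧ (∀ (γ : Γ) h, φ (γ * h) = φ h) ∧
      ∀ (a : SO1 p) h, φ (h * (a, 1)) ᵥ* mat a⁻¹ - φ h = l ᵥ* α (a, 1) h := by
  let B : HH p q := (1, b)
  obtain ⟨C, hC⟩ := (hb B).linear (rowL (p := p) l) id
  have hC0 : 0 ≤ C := (norm_nonneg _).trans (hC 1)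
  let T : HH p q → ℕ → (Fin (p + 1) → ℝ) :=
    fun h k => (1 / 2 : ℝ) ^ (k + 1) • (l ᵥ* α B (h * B⁻¹ ^ (k + 1)))
  have hTn : ∀ h k, ‖T h k‖ ≤ (1 / 2 : ℝ) ^ (k + 1) * C := by
    intro h k
    change ‖(1 / 2 : ℝ) ^ (k + 1) • (l ᵥ* α B (h * B⁻¹ ^ (k + 1)))‖ ≤ _
    rw [norm_smul, Real.norm_of_nonneg (by positivity)]
    exact mul_le_mul_of_nonneg_left (hC _) (by positivity)
  have hgs : HasSum (fun k : ℕ => (1 / 2 : ℝ) ^ (k + 1) * C) C := by
    have h1 := (hasSum_geometric_two' C)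
    have h2 : (fun n : ℕ => C / 2 / 2 ^ n) = fun k : ℕ => (1 / 2 : ℝ) ^ (k + 1) * C := by
      funext k
      rw [pow_succ, _root_.one_div_pow]
      field_simp
    rwa [h2] at h1
  have hTs : ∀ h, Summable (T h) := fun h => Summable.of_norm_bounded hgs.summable (hTn h)
  refine ⟨fun h => ∑' k, T h k, ⟨C, fun h => tsum_of_norm_bounded hgs (hTn h)⟩, ?_, ?_⟩
  · intro γ h
    refine tsum_congr fun k => ?_
    change _ • (l ᵥ* α B ((γ : HH p q) * h * B⁻¹ ^ (k + 1))) = _ • (l ᵥ* α B _)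
    rw [mul_assoc, hinv]
  · intro a h
    let A : HH p q := (a, 1)
    have hAB : A * B = B * A := by
      ext1 <;> simp [A, B]
    have hAk : ∀ k : ℕ, A * B⁻¹ ^ k = B⁻¹ ^ k * A := by
      intro k
      have : Commute A B := hAB
      exact (this.inv_right.pow_right k)
    -- right multiplication as a continuous linear map
    let R : (Fin (p + 1) → ℝ) →L[ℝ] (Fin (p + 1) → ℝ) :=
      LinearMap.toContinuousLinearMap
        { toFun := fun x => x ᵥ* mat a⁻¹
          map_add' := fun x y => Matrix.add_vecMul _ _ _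
          map_smul' := fun c x => Matrix.smul_vecMul _ _ _ }
    have hR : ∀ x, R x = x ᵥ* mat a⁻¹ := fun x => rfl
    rw [← hR, R.map_tsum (hTs _)]
    have hs1 : Summable fun k => R (T (h * A) k) := R.summable (hTs _)
    change (∑' k, R (T (h * A) k)) - ∑' k, T h k = l ᵥ* α A h
    rw [← hs1.tsum_sub (hTs h)]
    -- the telescoping terms
    let z : ℕ → (Fin (p + 1) → ℝ) := fun k => (1 / 2 : ℝ) ^ k • (l ᵥ* α A (h * B⁻¹ ^ k))
    obtain ⟨D, hD⟩ := (hb A).linear (rowL (p := p) l) id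
    have hzs : Summable z := by
      refine Summable.of_norm_bounded (g := fun k : ℕ => (1 / 2 : ℝ) ^ k * D)
        (summable_geometric_two.mul_right D) ?_
      intro k
      change ‖(1 / 2 : ℝ) ^ k • (l ᵥ* α A (h * B⁻¹ ^ k))‖ ≤ _
      rw [norm_smul, Real.norm_of_nonneg (by positivity)]
      exact mul_le_mul_of_nonneg_left (hD _) (by positivity)
    have hterm : ∀ k, R (T (h * A) k) - T h k = z k - z (k + 1) := by
      intro k
      have e1 : h * A * B⁻¹ ^ (k + 1) = h * B⁻¹ ^ (k + 1) * A := by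
        rw [mul_assoc, hAk, mul_assoc]
      have e2 : act A (α B (h * B⁻¹ ^ (k + 1) * A)) + α A (h * B⁻¹ ^ (k + 1)) =
          act B (α A (h * B⁻¹ ^ k)) + α B (h * B⁻¹ ^ (k + 1)) := by
        have h3 := hα A B (h * B⁻¹ ^ (k + 1))
        have h4 := hα B A (h * B⁻¹ ^ (k + 1))
        rw [← h3, hAB, h4]
        congr 3
        rw [pow_succ, mul_assoc, mul_assoc, inv_mul_cancel, mul_one]
      have e3 : l ᵥ* act B (α A (h * B⁻¹ ^ k)) = (2 : ℝ) • (l ᵥ* α A (h * B⁻¹ ^ k)) := by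
        rw [act_apply]
        change l ᵥ* (mat b * _ * mat (1 : SO1 p)⁻¹) = _
        rw [inv_one, mat_one, Matrix.mul_one, ← Matrix.vecMul_vecMul, hl, Matrix.smul_vecMul]
      have e4 : (l ᵥ* α B (h * B⁻¹ ^ (k + 1) * A)) ᵥ* mat a⁻¹ =
          l ᵥ* act A (α B (h * B⁻¹ ^ (k + 1) * A)) := by
        rw [act_apply]
        change _ = l ᵥ* (1 * _ * mat a⁻¹)
        rw [Matrix.one_mul, Matrix.vecMul_vecMul]
      change ((1 / 2 : ℝ) ^ (k + 1) • (l ᵥ* α B (h * A * B⁻¹ ^ (k + 1)))) ᵥ* mat a⁻¹ -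
        (1 / 2 : ℝ) ^ (k + 1) • (l ᵥ* α B (h * B⁻¹ ^ (k + 1))) =
        (1 / 2 : ℝ) ^ k • (l ᵥ* α A (h * B⁻¹ ^ k)) -
        (1 / 2 : ℝ) ^ (k + 1) • (l ᵥ* α A (h * B⁻¹ ^ (k + 1)))
      rw [e1, Matrix.smul_vecMul, e4]
      have e5 : l ᵥ* act A (α B (h * B⁻¹ ^ (k + 1) * A)) =
          (2 : ℝ) • (l ᵥ* α A (h * B⁻¹ ^ k)) + l ᵥ* α B (h * B⁻¹ ^ (k + 1)) -
          l ᵥ* α A (h * B⁻¹ ^ (k + 1)) := by
        rw [← e3, ← Matrix.vecMul_add, ← Matrix.vecMul_sub, ← e2, add_sub_cancel_right]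
      rw [e5, pow_succ, smul_sub, smul_add, smul_smul]
      rw [show (1 / 2 : ℝ) ^ k * (1 / 2) * 2 = (1 / 2) ^ k by ring]
      abel
    have hz0 : z 0 = l ᵥ* α A h := by
      change (1 / 2 : ℝ) ^ 0 • (l ᵥ* α A (h * B⁻¹ ^ 0)) = _
      rw [pow_zero, one_smul, pow_zero, mul_one]
    calc ∑' k, (R (T (h * A) k) - T h k) = ∑' k, (z k - z (k + 1)) :=
          tsum_congr fun k => hterm k
      _ = ∑' k, z k - ∑' k, z (k + 1) := hzs.tsum_sub ((summable_nat_add_iff 1).2 hzs)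
      _ = z 0 := by rw [hzs.tsum_eq_zero_add]; abel
      _ = l ᵥ* α A h := hz0

end Pool.Agent.H105R2.Lat
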