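import Mathlib

/-!
# Lattices in `SO(1,p) × SO(1,q)` and their deformations into `SO(2,p+q)`: definitions
-/

set_option autoImplicit false

namespace Pool.Agent.H105R2.Lat

open Matrix Topology

/-- The matrix of the quadratic form `x₀² - x₁² - ... - x_p²` of signature `(1,p)`. -/
def J (p : ℕ) : Matrix (Fin (p + 1)) (Fin (p + 1)) ℝ :=
  Matrix.diagonal fun i => if i = 0 then 1 else -1

/-- The matrix of the orthogonal direct sum of the forms `J p` and `J q`, of signature
`(2, p + q)`. -/
def JJ (p q : ℕ) : Matrix (Fin (p + 1) ⊕ Fin (q + 1)) (Fin (p + 1) ⊕ Fin (q + 1)) ℝ :=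
  Matrix.fromBlocks (J p) 0 0 (J q)

section

variable {ι : Type} [Fintype ι] [DecidableEq ι] {F : Matrix ι ι ℝ}

theorem preserves_one : Matrix.transpose (1 : Matrix ι ι ℝ) * F * (1 : Matrix ι ι ℝ) = F := by
  simp

omit [DecidableEq ι] in
theorem preserves_mul {a b : Matrix ι ι ℝ} (ha : Matrix.transpose a * F * a = F)
    (hb : Matrix.transpose b * F * b = F) : Matrix.transpose (a * b) * F * (a * b) = F := by
  calc Matrix.transpose (a * b) * F * (a * b)
      = Matrix.transpose b * (Matrix.transpose a * F * a) * b := by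
        rw [Matrix.transpose_mul]; simp only [Matrix.mul_assoc]
    _ = F := by rw [ha, hb]

theorem preserves_inv (a : Matrix.SpecialLinearGroup ι ℝ)
    (ha : Matrix.transpose a.1 * F * a.1 = F) :
    Matrix.transpose (a⁻¹).1 * F * (a⁻¹).1 = F := by
  have h1 : a.1 * (a⁻¹).1 = 1 := congrArg Subtype.val (mul_inv_cancel a)
  have h2 : Matrix.transpose (a⁻¹).1 * Matrix.transpose a.1 = 1 := by
    rw [← Matrix.transpose_mul, h1, Matrix.transpose_one]
  calc Matrix.transpose (a⁻¹).1 * F * (a⁻¹).1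
      = Matrix.transpose (a⁻¹).1 * (Matrix.transpose a.1 * F * a.1) * (a⁻¹).1 := by rw [ha]
    _ = (Matrix.transpose (a⁻¹).1 * Matrix.transpose a.1) * F * (a.1 * (a⁻¹).1) := by
        simp only [Matrix.mul_assoc]
    _ = F := by rw [h1, h2, Matrix.one_mul, Matrix.mul_one]

end

/-- The group of the real matrices `g` of determinant `1` with `gᵀ F g = F`, as a subgroup of the
special linear group. -/
def SOsub {ι : Type} [Fintype ι] [DecidableEq ι] (F : Matrix ι ι ℝ) :
    Subgroup (Matrix.SpecialLinearGroup ι ℝ) where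
  carrier := {g | Matrix.transpose g.1 * F * g.1 = F}
  one_mem' := preserves_one
  mul_mem' := preserves_mul
  inv_mem' := fun {a} ha => preserves_inv a ha

/-- The group of the real matrices `g` of determinant `1` with `gᵀ F g = F`. -/
def SO {ι : Type} [Fintype ι] [DecidableEq ι] (F : Matrix ι ι ℝ) : Type := SOsub F

section

variable {ι : Type} [Fintype ι] [DecidableEq ι] {F : Matrix ι ι ℝ}

instance instGroupSO : Group (SO F) := inferInstanceAs (Group (SOsub F))

instance instTopologicalSpaceSO : TopologicalSpace (SO F) :=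
  inferInstanceAs (TopologicalSpace (SOsub F))

instance : IsTopologicalGroup (SO F) := inferInstanceAs (IsTopologicalGroup (SOsub F))

instance : T2Space (SO F) := inferInstanceAs (T2Space (SOsub F))

/-- The matrix of an element of the group `SO F`. -/
def mat (g : SO F) : Matrix ι ι ℝ := g.1.1

theorem mat_form (g : SO F) : Matrix.transpose (mat g) * F * mat g = F := g.2

theorem mat_det (g : SO F) : (mat g).det = 1 := g.1.2

/-- The element of `SO F` with a given matrix. -/
def mkSO (A : Matrix ι ι ℝ) (h1 : A.det = 1) (h2 : Matrix.transpose A * F * A = F) : SO F :=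
  ⟨⟨A, h1⟩, h2⟩

end

/-- The group `SO(1,p)`. -/
abbrev SO1 (p : ℕ) : Type := SO (J p)

/-- The group `SO(2,p+q)` of the form `JJ p q`. -/
abbrev SO2 (p q : ℕ) : Type := SO (JJ p q)

/-- The group `SO(1,p) × SO(1,q)`. -/
abbrev HH (p q : ℕ) : Type := SO1 p × SO1 q

/-- The block diagonal matrix of an element of `SO(1,p) × SO(1,q)`. -/
def blockMat {p q : ℕ} (h : HH p q) :
    Matrix (Fin (p + 1) ⊕ Fin (q + 1)) (Fin (p + 1) ⊕ Fin (q + 1)) ℝ :=
  Matrix.fromBlocks (mat h.1) 0 0 (mat h.2)

theorem blockMat_det {p q : ℕ} (h : HH p q) : (blockMat h).det = 1 := by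
  rw [blockMat, Matrix.det_fromBlocks_zero₂₁, mat_det, mat_det, one_mul]

theorem blockMat_form {p q : ℕ} (h : HH p q) :
    Matrix.transpose (blockMat h) * JJ p q * blockMat h = JJ p q := by
  rw [blockMat, JJ, Matrix.fromBlocks_transpose, Matrix.fromBlocks_multiply,
    Matrix.fromBlocks_multiply]
  simp only [Matrix.transpose_zero, Matrix.mul_zero, Matrix.zero_mul, add_zero, zero_add,
    mat_form]

theorem blockMat_one {p q : ℕ} : blockMat (1 : HH p q) = 1 := Matrix.fromBlocks_one

theorem blockMat_mul {p q : ℕ} (a b : HH p q) : blockMat (a * b) = blockMat a * blockMat b := by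
  change Matrix.fromBlocks (mat a.1 * mat b.1) 0 0 (mat a.2 * mat b.2) =
    Matrix.fromBlocks (mat a.1) 0 0 (mat a.2) * Matrix.fromBlocks (mat b.1) 0 0 (mat b.2)
  rw [Matrix.fromBlocks_multiply]
  simp only [Matrix.mul_zero, Matrix.zero_mul, add_zero, zero_add]

/-- The natural (block diagonal) embedding of `SO(1,p) × SO(1,q)` in `SO(2,p+q)`, as a map. -/
def embFun (p q : ℕ) (h : HH p q) : SO2 p q := mkSO (blockMat h) (blockMat_det h) (blockMat_form h)

theorem embFun_one (p q : ℕ) : embFun p q 1 = 1 := Subtype.ext (Subtype.ext blockMat_one)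

theorem embFun_mul (p q : ℕ) (a b : HH p q) : embFun p q (a * b) = embFun p q a * embFun p q b :=
  Subtype.ext (Subtype.ext (blockMat_mul a b))

/-- The natural (block diagonal) embedding of `SO(1,p) × SO(1,q)` in `SO(2,p+q)`. -/
def emb (p q : ℕ) : HH p q →* SO2 p q where
  toFun := embFun p q
  map_one' := embFun_one p q
  map_mul' := embFun_mul p q

/-- `Γ` is a uniform lattice of `SO(1,p) × SO(1,q)`: it is discrete and `Γ \ (SO(1,p) × SO(1,q))`
is compact. -/
structure IsUniformLattice {p q : ℕ} (Γ : Subgroup (HH p q)) : Prop where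
  discrete : DiscreteTopology Γ
  cocompact : CompactSpace (Quotient (QuotientGroup.rightRel Γ))

/-- The subgroup `Γ`, as a type. -/
abbrev Pt {p q : ℕ} (Γ : Subgroup (HH p q)) : Type := Γ

/-- The homomorphisms `Γ → SO(2,p+q)`. -/
abbrev Rep {p q : ℕ} (Γ : Subgroup (HH p q)) : Type := Pt Γ →* SO2 p q

/-- A homomorphism `Γ → SO(2,p+q)`, as a map. -/
def Rep.toMap {p q : ℕ} {Γ : Subgroup (HH p q)} (ρ : Rep Γ) : Pt Γ → SO2 p q := fun γ => ρ γ

/-- The inclusion `Γ → SO(2,p+q)`, as a map. -/
def inclusion {p q : ℕ} (Γ : Subgroup (HH p q)) : Pt Γ → SO2 p q := fun γ => embFun p q γ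

/-- The conjugate of `x` by `g`. -/
def conjBy {p q : ℕ} (g x : SO2 p q) : SO2 p q := g * x * g⁻¹

/-- The image of `ρ` is conjugate in `SO(2,p+q)` into the image of `SO(1,p) × SO(1,q)`. -/
def ConjInto {p q : ℕ} {Γ : Subgroup (HH p q)} (ρ : Rep Γ) : Prop :=
  ∃ g : SO2 p q, ∀ γ : Pt Γ, ∃ h : HH p q, conjBy g (Rep.toMap ρ γ) = embFun p q h

/-- `ρ` is a deformation of `Γ` into `SO(2,p+q)`: a path of homomorphisms, continuous for the
topology of pointwise convergence, which starts at the inclusion. -/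
def IsDeformation {p q : ℕ} {Γ : Subgroup (HH p q)} (ρ : unitInterval → Rep Γ) : Prop :=
  (∀ γ : Pt Γ, Continuous fun t => Rep.toMap (ρ t) γ) ∧ Rep.toMap (ρ 0) = inclusion Γ

/-- Every homomorphism `Γ → SO(2,p+q)` sufficiently close to the inclusion, for the topology of
pointwise convergence, has image conjugate into `SO(1,p) × SO(1,q)`. -/
def RigidNearInclusion {p q : ℕ} (Γ : Subgroup (HH p q)) : Prop :=
  ∃ U ∈ 𝓝 (inclusion Γ), ∀ ρ : Rep Γ, Rep.toMap ρ ∈ U → ConjInto ρ

/-- `Γ` has a non-trivial deformation into `SO(2,p+q)`. -/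
def HasNontrivialDeformation {p q : ℕ} (Γ : Subgroup (HH p q)) : Prop :=
  ∃ ρ : unitInterval → Rep Γ, IsDeformation ρ ∧ ∀ t, 0 < t → ¬ ConjInto (ρ t)

end Pool.Agent.H105R2.Lat
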