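import Pool.Agent.H105R2.Lat.D

/-!
# Vanishing of the cohomology of uniform lattices with coefficients in `Hom(V₁, V₂)`
-/

set_option autoImplicit false

namespace Pool.Agent.H105R2.Lat

open Matrix Topology

attribute [local instance] Matrix.normedAddCommGroup Matrix.normedSpace

variable {p q : ℕ} {Γ : Subgroup (HH p q)}

theorem bdd_of_rows {u : HH p q → Matrix (Fin (q + 1)) (Fin (p + 1)) ℝ}
    (h : ∀ j, Bdd fun h => u h j) : Bdd u := by
  choose C hC using h
  refine ⟨∑ j, |C j|, fun h => ?_⟩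
  have h0 : 0 ≤ ∑ j, |C j| := Finset.sum_nonneg fun j _ => abs_nonneg _
  rw [Matrix.norm_le_iff h0]
  intro j k
  calc ‖u h j k‖ ≤ ‖u h j‖ := norm_le_pi_norm (u h j) k
    _ ≤ C j := hC j h
    _ ≤ |C j| := le_abs_self _
    _ ≤ ∑ j, |C j| := Finset.single_le_sum (f := fun j => |C j|) (fun j _ => abs_nonneg _)
        (Finset.mem_univ j)

/-- The cohomological equation can be solved in all directions. -/
theorem solve_all (hq : 1 ≤ q)
    (α : HH p q → HH p q → Matrix (Fin (q + 1)) (Fin (p + 1)) ℝ)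
    (hα : ∀ g g' h, α (g * g') h = act g (α g' (h * g)) + α g h)
    (hb : ∀ g, Bdd (α g)) (hinv : ∀ g (γ : Γ) h, α g (γ * h) = α g h)
    (l : Fin (q + 1) → ℝ) :
    ∃ φ : HH p q → (Fin (p + 1) → ℝ), Bdd φ ∧ (∀ (γ : Γ) h, φ (γ * h) = φ h) ∧
      ∀ (a : SO1 p) h, φ (h * (a, 1)) ᵥ* mat a⁻¹ - φ h = l ᵥ* α (a, 1) h := by
  let P : Submodule ℝ (Fin (q + 1) → ℝ) :=
    { carrier := {l | ∃ φ : HH p q → (Fin (p + 1) → ℝ), Bdd φ ∧ (∀ (γ : Γ) h, φ (γ * h) = φ h) ∧
        ∀ (a : SO1 p) h, φ (h * (a, 1)) ᵥ* mat a⁻¹ - φ h = l ᵥ* α (a, 1) h}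
      add_mem' := by
        rintro l l' ⟨φ, h1, h2, h3⟩ ⟨φ', h1', h2', h3'⟩
        refine ⟨fun h => φ h + φ' h, h1.add h1', fun γ h => ?_, fun a h => ?_⟩
        · change φ _ + φ' _ = _
          rw [h2, h2']
        · change (φ (h * (a, 1)) + φ' (h * (a, 1))) ᵥ* mat a⁻¹ - (φ h + φ' h) = _
          rw [Matrix.add_vecMul, Matrix.add_vecMul, ← h3, ← h3']
          abel
      zero_mem' := ⟨fun _ => 0, ⟨0, fun h => by simp⟩, fun _ _ => rfl, fun a h => by
        rw [Matrix.zero_vecMul, Matrix.zero_vecMul, sub_zero]⟩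
      smul_mem' := by
        rintro c l ⟨φ, ⟨C, hC⟩, h2, h3⟩
        refine ⟨fun h => c • φ h, ⟨|c| * C, fun h => ?_⟩, fun γ h => by
          change c • φ _ = _
          rw [h2], fun a h => ?_⟩
        · rw [norm_smul, Real.norm_eq_abs]
          exact mul_le_mul_of_nonneg_left (hC h) (abs_nonneg c)
        · rw [Matrix.smul_vecMul, Matrix.smul_vecMul, ← h3, smul_sub] }
  have hboost : ∀ (i : Fin q) (ε : ℝ), ε ^ 2 = 1 →
      (Pi.single 0 1 + ε • Pi.single i.succ 1 : Fin (q + 1) → ℝ) ∈ P := by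
    intro i ε hε
    obtain ⟨b, hb'⟩ := exists_boost i ε hε
    exact solve_row α hα hb hinv b _ hb'
  have h0 : (Pi.single 0 1 : Fin (q + 1) → ℝ) ∈ P := by
    have h1 := hboost ⟨0, hq⟩ 1 (by norm_num)
    have h2 := hboost ⟨0, hq⟩ (-1) (by norm_num)
    have h3 := P.smul_mem (1 / 2) (P.add_mem h1 h2)
    convert h3 using 1
    funext k
    simp only [Pi.add_apply, Pi.smul_apply, smul_eq_mul]
    ring
  have hi : ∀ i : Fin q, (Pi.single i.succ 1 : Fin (q + 1) → ℝ) ∈ P := by
    intro i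
    have h1 := hboost i 1 (by norm_num)
    have h3 := P.sub_mem h1 h0
    convert h3 using 1
    funext k
    simp only [Pi.add_apply, Pi.sub_apply, Pi.smul_apply, smul_eq_mul]
    ring
  have hall : ∀ k : Fin (q + 1), (Pi.single k 1 : Fin (q + 1) → ℝ) ∈ P := by
    intro k
    refine Fin.cases ?_ (fun k => ?_) k
    · exact h0
    · exact hi k
  have hl : l = ∑ k, l k • (Pi.single k 1 : Fin (q + 1) → ℝ) := by
    funext j
    rw [Finset.sum_apply]
    simp [Pi.single_apply]
  have : l ∈ P := by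
    rw [hl]
    exact P.sum_mem fun k _ => P.smul_mem _ (hall k)
  exact this

/-- **Vanishing theorem**: every cocycle of a uniform lattice of `SO(1,p) × SO(1,q)` with
coefficients in `Hom(V₁, V₂)` is a coboundary. -/
theorem vanishing (hp : 1 ≤ p) (hq : 1 ≤ q) (hΓ : IsUniformLattice Γ)
    (c : Γ → Matrix (Fin (q + 1)) (Fin (p + 1)) ℝ)
    (hc : ∀ γ γ', c (γ * γ') = c γ + act γ (c γ')) :
    ∃ X : Matrix (Fin (q + 1)) (Fin (p + 1)) ℝ, ∀ γ : Γ, c γ = act γ X - X := by
  obtain ⟨f, hf, hfb⟩ := exists_primitive hΓ c hc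
  let α : HH p q → HH p q → Matrix (Fin (q + 1)) (Fin (p + 1)) ℝ :=
    fun g h => act g (f (h * g)) - f h
  have hα : ∀ g g' h, α (g * g') h = act g (α g' (h * g)) + α g h := by
    intro g g' h
    change act (g * g') (f (h * (g * g'))) - f h =
      act g (act g' (f (h * g * g')) - f (h * g)) + (act g (f (h * g)) - f h)
    rw [map_sub, act_mul, mul_assoc]
    abel
  have hinv : ∀ g (γ : Γ) h, α g (γ * h) = α g h := by
    intro g γ h
    change act g (f (γ * h * g)) - f (γ * h) = act g (f (h * g)) - f h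
    rw [mul_assoc, hf, hf, map_add, ← act_mul]
    have : g * ((γ : HH p q) * (h * g))⁻¹ = ((γ : HH p q) * h)⁻¹ := by group
    rw [this]
    abel
  have hαb : ∀ g, Bdd (α g) := hfb
  have hαd : ∀ g h, α g h = act g (f (h * g)) - f h := fun _ _ => rfl
  clear_value α
  choose φ hφb hφinv hφ using fun j : Fin (q + 1) =>
    solve_all hq α hα hαb hinv (Pi.single j 1)
  let u : HH p q → Matrix (Fin (q + 1)) (Fin (p + 1)) ℝ := fun h => Matrix.of fun j => φ j h
  have hub : Bdd u := bdd_of_rows fun j => hφb j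
  have huinv : ∀ (γ : Γ) h, u (γ * h) = u h := by
    intro γ h
    ext j k
    exact congrFun (hφinv j γ h) k
  have hu1 : ∀ (a : SO1 p) h, act (a, 1) (u (h * (a, 1))) - u h = α (a, 1) h := by
    intro a h
    ext j k
    have h1 := congrFun (hφ j a h) k
    rw [Matrix.single_one_vecMul] at h1
    rw [← Matrix.row_apply (α (a, 1) h), ← h1]
    change ((1 : Matrix (Fin (q + 1)) (Fin (q + 1)) ℝ) * u (h * (a, 1)) * mat a⁻¹) j k -
      u h j k = _
    rw [Matrix.one_mul, Matrix.mul_apply]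
    rfl
  clear_value u
  -- the corrected cocycle
  let α' : HH p q → HH p q → Matrix (Fin (q + 1)) (Fin (p + 1)) ℝ :=
    fun g h => α g h - (act g (u (h * g)) - u h)
  have hα' : ∀ g g' h, α' (g * g') h = act g (α' g' (h * g)) + α' g h := by
    intro g g' h
    change α (g * g') h - (act (g * g') (u (h * (g * g'))) - u h) =
      act g (α g' (h * g) - (act g' (u (h * g * g')) - u (h * g))) +
        (α g h - (act g (u (h * g)) - u h))
    rw [hα, map_sub, map_sub, act_mul, mul_assoc]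
    abel
  have hα'1 : ∀ (a : SO1 p) h, α' (a, 1) h = 0 := by
    intro a h
    change α (a, 1) h - _ = 0
    rw [hu1, sub_self]
  have hα'2 : ∀ (b : SO1 q) h, α' (1, b) h = 0 := by
    intro b
    apply no_invariants hp
    · exact (hαb (1, b)).sub ((hub.linear (act (1, b)) fun h => h * (1, b)).sub hub)
    · intro a h
      have h1 := hα' (a, 1) (1, b) h
      have h2 := hα' (1, b) (a, 1) h
      rw [hα'1] at h1 h2
      rw [map_zero, zero_add] at h2
      rw [add_zero] at h1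
      rw [← h1, ← h2]
      congr 1
      ext1 <;> simp
  have hα'0 : ∀ g h, α' g h = 0 := by
    intro g h
    have h1 := hα' (g.1, 1) (1, g.2) h
    rw [hα'1, hα'2, map_zero, add_zero] at h1
    have : ((g.1, 1) * (1, g.2) : HH p q) = g := by ext1 <;> simp
    rwa [this] at h1
  let m : HH p q → Matrix (Fin (q + 1)) (Fin (p + 1)) ℝ := fun h => f h - u h
  have hm : ∀ g, m g = act g⁻¹ (m 1) := by
    intro g
    have h1 := hα'0 g 1
    change α g 1 - (act g (u (1 * g)) - u 1) = 0 at h1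
    rw [hαd, one_mul] at h1
    have h2 : act g (m g) = m 1 := by
      change act g (f g - u g) = f 1 - u 1
      rw [map_sub, ← sub_eq_zero, ← h1]
      abel
    rw [← h2, act_inv_act]
  refine ⟨-m 1, fun γ => ?_⟩
  have h1 : m γ = act (γ : HH p q)⁻¹ (c γ) + m 1 := by
    change f γ - u γ = _ + (f 1 - u 1)
    have h2 := hf γ 1
    have h3 := huinv γ 1
    rw [mul_one] at h2 h3
    rw [h2, h3]
    abel
  rw [hm] at h1
  have h2 := congrArg (act (γ : HH p q)) h1
  rw [act_act_inv, map_add, act_act_inv] at h2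
  have h3 : c γ = m 1 - act γ (m 1) := by
    rw [eq_sub_iff_add_eq, ← h2]
  rw [h3, map_neg]
  abel

/-- `Hom(V₁, V₂)` has no invariants under a uniform lattice. -/
theorem vanishing_zero (hp : 1 ≤ p) (hΓ : IsUniformLattice Γ)
    (X : Matrix (Fin (q + 1)) (Fin (p + 1)) ℝ) (hX : ∀ γ : Γ, act γ X = X) : X = 0 := by
  obtain ⟨K, hK, hK'⟩ := exists_compact hΓ
  have hT := hK.image (continuous_act X)
  obtain ⟨C, hC⟩ := hT.isBounded.exists_norm_le
  have h1 := no_invariants hp (fun h : HH p q => act h⁻¹ X) ⟨C, fun h => ?_⟩ ?_ 1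
  · simpa [act_one] using h1
  · obtain ⟨γ, hγ, d, hd, rfl⟩ := hK' h
    apply hC
    refine ⟨d, hd, ?_⟩
    change act d⁻¹ X = act (γ * d)⁻¹ X
    have h2 : act γ⁻¹ X = X := hX ⟨γ, hγ⟩⁻¹
    rw [_root_.mul_inv_rev, act_mul, h2]
  · intro a h
    rw [← act_mul]
    congr 1
    group

end Pool.Agent.H105R2.Lat
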