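import Pool.Agent.H105R2.Lat.E

/-!
# The Cayley transform in `SO(2,p+q)`
-/

set_option autoImplicit false

namespace Pool.Agent.H105R2.Lat

open Matrix Topology Filter

attribute [local instance] Matrix.normedAddCommGroup Matrix.normedSpace

variable {p q : ℕ}

theorem tendsto_matrix_inv {α n : Type} [Fintype n] [DecidableEq n] {l : Filter α}
    {f : α → Matrix n n ℝ} {A : Matrix n n ℝ} (hA : A.det ≠ 0) (hf : Tendsto f l (𝓝 A)) :
    Tendsto (fun a => (f a)⁻¹) l (𝓝 A⁻¹) := by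
  have h : ∀ B : Matrix n n ℝ, B⁻¹ = (B.det)⁻¹ • B.adjugate := fun B => by
    rw [Matrix.inv_def, Ring.inverse_eq_inv']
  simp only [h]
  have h1 : Tendsto (fun a => (f a).det) l (𝓝 A.det) := (continuous_id.matrix_det.tendsto A).comp hf
  have h2 : Tendsto (fun a => (f a).adjugate) l (𝓝 A.adjugate) :=
    (continuous_id.matrix_adjugate.tendsto A).comp hf
  exact (h1.inv₀ hA).smul h2

/-- the space of matrices -/
abbrev M1 (p q : ℕ) : Type := Matrix (Fin (q + 1)) (Fin (p + 1)) ℝ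

/-- the space of matrices -/
abbrev MM (p q : ℕ) : Type :=
  Matrix (Fin (p + 1) ⊕ Fin (q + 1)) (Fin (p + 1) ⊕ Fin (q + 1)) ℝ

/-- the adjoint -/
def adj (Y : M1 p q) : Matrix (Fin (p + 1)) (Fin (q + 1)) ℝ := -(J p * Matrix.transpose Y * J q)

/-- the element of the Lie algebra -/
def xi (Y : M1 p q) : MM p q := Matrix.fromBlocks 0 (adj Y) Y 0

theorem xi_zero : xi (0 : M1 p q) = 0 := by
  rw [xi, adj, Matrix.transpose_zero, Matrix.mul_zero, Matrix.zero_mul, neg_zero,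
    Matrix.fromBlocks_zero]

theorem xi_add (Y Z : M1 p q) : xi (Y + Z) = xi Y + xi Z := by
  rw [xi, xi, xi, Matrix.fromBlocks_add, add_zero, add_zero]
  congr 1
  rw [adj, adj, adj, Matrix.transpose_add, Matrix.mul_add, Matrix.add_mul, neg_add]

theorem xi_smul (c : ℝ) (Y : M1 p q) : xi (c • Y) = c • xi Y := by
  rw [xi, xi, Matrix.fromBlocks_smul, smul_zero, smul_zero]
  congr 1
  rw [adj, adj, Matrix.transpose_smul, Matrix.mul_smul, Matrix.smul_mul, smul_neg]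

theorem xi_neg (Y : M1 p q) : xi (-Y) = -xi Y := by
  have := xi_smul (-1) Y
  rwa [neg_one_smul, neg_one_smul] at this

theorem continuous_xi : Continuous (xi : M1 p q → MM p q) := by
  have h : Continuous (adj : M1 p q → Matrix (Fin (p + 1)) (Fin (q + 1)) ℝ) :=
    ((continuous_const.matrix_mul continuous_id.matrix_transpose).matrix_mul continuous_const).neg
  exact continuous_const.matrix_fromBlocks h continuous_id continuous_const

theorem JJ_mul_JJ : JJ p q * JJ p q = 1 := by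
  rw [JJ, Matrix.fromBlocks_multiply]
  simp only [J_mul_J, Matrix.mul_zero, Matrix.zero_mul, add_zero, zero_add]
  exact Matrix.fromBlocks_one

theorem xi_form (Y : M1 p q) : Matrix.transpose (xi Y) * JJ p q = -(JJ p q * xi Y) := by
  rw [xi, JJ, Matrix.fromBlocks_transpose, Matrix.fromBlocks_multiply, Matrix.fromBlocks_multiply,
    Matrix.fromBlocks_neg]
  simp only [Matrix.transpose_zero, Matrix.mul_zero, Matrix.zero_mul, add_zero, zero_add, neg_zero]
  congr 1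
  · rw [adj, Matrix.mul_neg, neg_neg, ← Matrix.mul_assoc, ← Matrix.mul_assoc, J_mul_J,
      Matrix.one_mul]
  · rw [adj, Matrix.transpose_neg, Matrix.transpose_mul, Matrix.transpose_mul,
      Matrix.transpose_transpose, J_transpose, J_transpose, Matrix.neg_mul, Matrix.mul_assoc,
      Matrix.mul_assoc, J_mul_J, Matrix.mul_one]

theorem det_JJ_ne : (JJ p q).det ≠ 0 := by
  intro h
  have := congrArg Matrix.det (JJ_mul_JJ (p := p) (q := q))
  rw [Matrix.det_mul, h, zero_mul, Matrix.det_one] at this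
  exact zero_ne_one this

theorem det_xi (Y : M1 p q) : (1 + xi Y).det = (1 - xi Y).det := by
  have h : Matrix.transpose (1 + xi Y) * JJ p q = JJ p q * (1 - xi Y) := by
    rw [Matrix.transpose_add, Matrix.transpose_one, Matrix.add_mul, Matrix.one_mul, xi_form,
      Matrix.mul_sub, Matrix.mul_one, sub_eq_add_neg]
  have h1 := congrArg Matrix.det h
  rw [Matrix.det_mul, Matrix.det_mul, Matrix.det_transpose, mul_comm] at h1
  exact mul_left_cancel₀ det_JJ_ne h1

/-- the Cayley transform -/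
noncomputable def cay (Y : M1 p q) : MM p q := (2 : ℝ) • (1 - xi Y)⁻¹ - 1

theorem cay_zero : cay (0 : M1 p q) = 1 := by
  rw [cay, xi_zero, sub_zero, inv_one, two_smul, add_sub_cancel_right]

theorem tendsto_cay {α : Type} {l : Filter α} {f : α → M1 p q} {Y : M1 p q}
    (hY : (1 - xi Y).det ≠ 0) (hf : Tendsto f l (𝓝 Y)) :
    Tendsto (fun a => cay (f a)) l (𝓝 (cay Y)) := by
  have h1 : Tendsto (fun a => 1 - xi (f a)) l (𝓝 (1 - xi Y)) :=
    tendsto_const_nhds.sub ((continuous_xi.tendsto Y).comp hf)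
  exact ((tendsto_matrix_inv hY h1).const_smul (2 : ℝ)).sub tendsto_const_nhds

theorem cay_mul (Y : M1 p q) (hY : (1 - xi Y).det ≠ 0) : cay Y * (1 - xi Y) = 1 + xi Y := by
  rw [cay, Matrix.sub_mul, Matrix.smul_mul, Matrix.nonsing_inv_mul _ (isUnit_iff_ne_zero.2 hY),
    Matrix.one_mul, two_smul]
  abel

theorem det_neg_ne (Y : M1 p q) (hY : (1 - xi Y).det ≠ 0) : (1 - xi (-Y)).det ≠ 0 := by
  rw [xi_neg, sub_neg_eq_add, det_xi]
  exact hY

theorem cay_mul_cay_neg (Y : M1 p q) (hY : (1 - xi Y).det ≠ 0) : cay Y * cay (-Y) = 1 := by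
  have h2 := det_neg_ne Y hY
  have e1 : (1 - xi Y) * (1 - xi Y)⁻¹ = 1 := Matrix.mul_nonsing_inv _ (isUnit_iff_ne_zero.2 hY)
  have e2 : (1 - xi (-Y)) * (1 - xi (-Y))⁻¹ = 1 :=
    Matrix.mul_nonsing_inv _ (isUnit_iff_ne_zero.2 h2)
  have e3 := cay_mul Y hY
  have e4 := cay_mul (-Y) h2
  rw [xi_neg] at e4 e2 h2
  have h3 : cay Y * cay (-Y) * (1 - -xi Y) = 1 - - xi Y := by
    rw [Matrix.mul_assoc, e4, ← sub_eq_add_neg, e3, sub_neg_eq_add]
  calc cay Y * cay (-Y) = cay Y * cay (-Y) * (1 - -xi Y) * (1 - -xi Y)⁻¹ := by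
        rw [Matrix.mul_assoc, e2, Matrix.mul_one]
    _ = 1 := by rw [h3, e2]

theorem cay_neg_mul_cay (Y : M1 p q) (hY : (1 - xi Y).det ≠ 0) : cay (-Y) * cay Y = 1 :=
  mul_eq_one_comm.1 (cay_mul_cay_neg Y hY)

theorem cay_det (Y : M1 p q) (hY : (1 - xi Y).det ≠ 0) : (cay Y).det = 1 := by
  have h := congrArg Matrix.det (cay_mul Y hY)
  rw [Matrix.det_mul, det_xi] at h
  exact mul_right_cancel₀ hY (by rw [h, one_mul])

theorem cay_form (Y : M1 p q) (hY : (1 - xi Y).det ≠ 0) :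
    Matrix.transpose (cay Y) * JJ p q * cay Y = JJ p q := by
  have h2 := det_neg_ne Y hY
  have e3 := cay_mul Y hY
  have h : Matrix.transpose (1 - xi Y) * JJ p q = JJ p q * (1 + xi Y) := by
    rw [Matrix.transpose_sub, Matrix.transpose_one, Matrix.sub_mul, Matrix.one_mul, xi_form,
      Matrix.mul_add, Matrix.mul_one, sub_neg_eq_add]
  have h' : Matrix.transpose (1 + xi Y) * JJ p q = JJ p q * (1 - xi Y) := by
    rw [Matrix.transpose_add, Matrix.transpose_one, Matrix.add_mul, Matrix.one_mul, xi_form,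
      Matrix.mul_sub, Matrix.mul_one, sub_eq_add_neg]
  -- (1-ξ)ᵀ cayᵀ JJ cay (1-ξ) = (1+ξ)ᵀ JJ (1+ξ) = JJ (1-ξ)(1+ξ)
  have h3 : Matrix.transpose (1 - xi Y) * (Matrix.transpose (cay Y) * JJ p q * cay Y) *
      (1 - xi Y) = Matrix.transpose (1 - xi Y) * JJ p q * (1 - xi Y) := by
    calc Matrix.transpose (1 - xi Y) * (Matrix.transpose (cay Y) * JJ p q * cay Y) * (1 - xi Y)
        = Matrix.transpose (cay Y * (1 - xi Y)) * JJ p q * (cay Y * (1 - xi Y)) := by
          rw [Matrix.transpose_mul]; simp only [Matrix.mul_assoc]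
      _ = JJ p q * ((1 - xi Y) * (1 + xi Y)) := by rw [e3, h']; simp only [Matrix.mul_assoc]
      _ = JJ p q * ((1 + xi Y) * (1 - xi Y)) := by
          congr 1
          noncomm_ring
      _ = Matrix.transpose (1 - xi Y) * JJ p q * (1 - xi Y) := by
          rw [h]; simp only [Matrix.mul_assoc]
  have hu : IsUnit (1 - xi Y) := (Matrix.isUnit_iff_isUnit_det _).2 (isUnit_iff_ne_zero.2 hY)
  have hut : IsUnit (Matrix.transpose (1 - xi Y)) := by
    rw [Matrix.isUnit_iff_isUnit_det, Matrix.det_transpose]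
    exact isUnit_iff_ne_zero.2 hY
  have h4 := hu.mul_right_cancel h3
  exact hut.mul_left_cancel h4

/-- the Cayley transform in `SO(2,p+q)` -/
noncomputable def cayG (Y : M1 p q) (hY : (1 - xi Y).det ≠ 0) : SO2 p q :=
  mkSO (cay Y) (cay_det Y hY) (cay_form Y hY)

theorem mat_cayG (Y : M1 p q) (hY : (1 - xi Y).det ≠ 0) : mat (cayG Y hY) = cay Y := rfl

theorem mat_cayG_inv (Y : M1 p q) (hY : (1 - xi Y).det ≠ 0) :
    mat (cayG Y hY)⁻¹ = cay (-Y) := by
  have h1 : mat (cayG Y hY)⁻¹ * cay Y = 1 := mat_inv_mul (cayG Y hY)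
  calc mat (cayG Y hY)⁻¹ = mat (cayG Y hY)⁻¹ * (cay Y * cay (-Y)) := by
        rw [cay_mul_cay_neg Y hY, Matrix.mul_one]
    _ = cay (-Y) := by rw [← Matrix.mul_assoc, h1, Matrix.one_mul]

/-- The difference of two Cayley transforms. -/
theorem cay_sub (Y Z : M1 p q) (δ : ℝ) (hY : (1 - xi Y).det ≠ 0)
    (hZ : (1 - xi (Y + δ • Z)).det ≠ 0) :
    cay (Y + δ • Z) = cay Y + δ • ((2 : ℝ) • ((1 - xi (Y + δ • Z))⁻¹ * xi Z * (1 - xi Y)⁻¹)) := by
  have e1 : (1 - xi Y) * (1 - xi Y)⁻¹ = 1 := Matrix.mul_nonsing_inv _ (isUnit_iff_ne_zero.2 hY)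
  have e2 : (1 - xi (Y + δ • Z))⁻¹ * (1 - xi (Y + δ • Z)) = 1 :=
    Matrix.nonsing_inv_mul _ (isUnit_iff_ne_zero.2 hZ)
  have h : (1 - xi (Y + δ • Z))⁻¹ = (1 - xi Y)⁻¹ +
      δ • ((1 - xi (Y + δ • Z))⁻¹ * xi Z * (1 - xi Y)⁻¹) := by
    have h3 : δ • xi Z = (1 - xi Y) - (1 - xi (Y + δ • Z)) := by
      rw [xi_add, xi_smul]; abel
    calc (1 - xi (Y + δ • Z))⁻¹ = (1 - xi (Y + δ • Z))⁻¹ * ((1 - xi Y) * (1 - xi Y)⁻¹) := by
          rw [e1, Matrix.mul_one]
      _ = (1 - xi (Y + δ • Z))⁻¹ * ((1 - xi (Y + δ • Z)) + δ • xi Z) * (1 - xi Y)⁻¹ := by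
          rw [h3, add_sub_cancel, ← Matrix.mul_assoc]
      _ = _ := by
          rw [Matrix.mul_add, Matrix.add_mul, e2, Matrix.one_mul, Matrix.mul_smul,
            Matrix.smul_mul]
  rw [cay, cay, h, smul_add, smul_comm (2 : ℝ) δ]
  rw [← h]
  abel

end Pool.Agent.H105R2.Lat
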