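import Pool.Agent.H105R2.Lat.F

/-!
# Blocks, and the limit of the minimisers
-/

set_option autoImplicit false

namespace Pool.Agent.H105R2.Lat

open Matrix Topology Filter

attribute [local instance] Matrix.normedAddCommGroup Matrix.normedSpace

variable {p q : ℕ} {Γ : Subgroup (HH p q)}

theorem blocks11_mul (M N : MM p q) : (M * N).toBlocks₁₁ =
    M.toBlocks₁₁ * N.toBlocks₁₁ + M.toBlocks₁₂ * N.toBlocks₂₁ := by
  conv_lhs => rw [← Matrix.fromBlocks_toBlocks M, ← Matrix.fromBlocks_toBlocks N]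
  rw [Matrix.fromBlocks_multiply, Matrix.toBlocks_fromBlocks₁₁]

theorem blocks12_mul (M N : MM p q) : (M * N).toBlocks₁₂ =
    M.toBlocks₁₁ * N.toBlocks₁₂ + M.toBlocks₁₂ * N.toBlocks₂₂ := by
  conv_lhs => rw [← Matrix.fromBlocks_toBlocks M, ← Matrix.fromBlocks_toBlocks N]
  rw [Matrix.fromBlocks_multiply, Matrix.toBlocks_fromBlocks₁₂]

theorem blocks21_mul (M N : MM p q) : (M * N).toBlocks₂₁ =
    M.toBlocks₂₁ * N.toBlocks₁₁ + M.toBlocks₂₂ * N.toBlocks₂₁ := by
  conv_lhs => rw [← Matrix.fromBlocks_toBlocks M, ← Matrix.fromBlocks_toBlocks N]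
  rw [Matrix.fromBlocks_multiply, Matrix.toBlocks_fromBlocks₂₁]

theorem blocks22_mul (M N : MM p q) : (M * N).toBlocks₂₂ =
    M.toBlocks₂₁ * N.toBlocks₁₂ + M.toBlocks₂₂ * N.toBlocks₂₂ := by
  conv_lhs => rw [← Matrix.fromBlocks_toBlocks M, ← Matrix.fromBlocks_toBlocks N]
  rw [Matrix.fromBlocks_multiply, Matrix.toBlocks_fromBlocks₂₂]

theorem mat_emb (h : HH p q) : mat (emb p q h) = Matrix.fromBlocks (mat h.1) 0 0 (mat h.2) := rfl

theorem continuous_blocks21 : Continuous fun M : MM p q => M.toBlocks₂₁ := by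
  refine continuous_matrix fun i j => ?_
  exact continuous_id.matrix_elem (Sum.inr i) (Sum.inl j)

theorem continuous_blocks11 : Continuous fun M : MM p q => M.toBlocks₁₁ := by
  refine continuous_matrix fun i j => ?_
  exact continuous_id.matrix_elem (Sum.inl i) (Sum.inl j)

theorem continuous_blocks22 : Continuous fun M : MM p q => M.toBlocks₂₂ := by
  refine continuous_matrix fun i j => ?_
  exact continuous_id.matrix_elem (Sum.inr i) (Sum.inr j)

theorem blocks21_add (M N : MM p q) : (M + N).toBlocks₂₁ = M.toBlocks₂₁ + N.toBlocks₂₁ := rfl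

theorem blocks21_smul (c : ℝ) (M : MM p q) : (c • M).toBlocks₂₁ = c • M.toBlocks₂₁ := rfl

theorem cay_blocks (Y : M1 p q) (hY : (1 - xi Y).det ≠ 0) :
    (cay Y).toBlocks₁₁ * (1 - adj Y * Y) = 1 + adj Y * Y ∧
      (cay Y).toBlocks₂₁ * (1 - adj Y * Y) = (2 : ℝ) • Y := by
  have h1 : cay Y * ((1 - xi Y) * (1 + xi Y)) = (1 + xi Y) * (1 + xi Y) := by
    rw [← Matrix.mul_assoc, cay_mul Y hY]
  have h2 : (1 - xi Y) * (1 + xi Y) =
      Matrix.fromBlocks (1 - adj Y * Y) 0 0 (1 - Y * adj Y) := by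
    have : (1 - xi Y) * (1 + xi Y) = 1 - xi Y * xi Y := by noncomm_ring
    rw [this, xi, Matrix.fromBlocks_multiply, ← Matrix.fromBlocks_one, sub_eq_add_neg,
      Matrix.fromBlocks_neg, Matrix.fromBlocks_add]
    simp only [Matrix.mul_zero, Matrix.zero_mul, add_zero, zero_add, neg_zero, ← sub_eq_add_neg]
  have h3 : (1 + xi Y) * (1 + xi Y) =
      Matrix.fromBlocks (1 + adj Y * Y) ((2 : ℝ) • adj Y) ((2 : ℝ) • Y) (1 + Y * adj Y) := by
    have : (1 + xi Y) * (1 + xi Y) = 1 + xi Y * xi Y + (2 : ℝ) • xi Y := by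
      rw [two_smul]; noncomm_ring
    rw [this, xi, Matrix.fromBlocks_multiply, ← Matrix.fromBlocks_one, Matrix.fromBlocks_add,
      Matrix.fromBlocks_smul, Matrix.fromBlocks_add]
    simp only [Matrix.mul_zero, Matrix.zero_mul, add_zero, zero_add, smul_zero]
  rw [h2, h3] at h1
  constructor
  · have := congrArg Matrix.toBlocks₁₁ h1
    rw [blocks11_mul] at this
    simpa using this
  · have := congrArg Matrix.toBlocks₂₁ h1
    rw [blocks21_mul] at this
    simpa using this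

theorem eq_zero_of_invariant (hp : 1 ≤ p) (hΓ : IsUniformLattice Γ) (Y : M1 p q)
    (hY : (1 - xi Y).det ≠ 0) (hY' : (1 + adj Y * Y).det ≠ 0)
    (h : ∀ γ : Γ, (cay (-Y) * mat (emb p q γ) * cay Y).toBlocks₂₁ = 0) : Y = 0 := by
  obtain ⟨h1, h2⟩ := cay_blocks Y hY
  set a := (cay Y).toBlocks₁₁ with ha
  set c := (cay Y).toBlocks₂₁ with hc
  have hadet : a.det ≠ 0 := by
    intro h0
    have := congrArg Matrix.det h1
    rw [Matrix.det_mul, h0, zero_mul] at this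
    exact hY' this.symm
  have hau := isUnit_iff_ne_zero.2 hadet
  have e1 : a * a⁻¹ = 1 := Matrix.mul_nonsing_inv _ hau
  have e2 : a⁻¹ * a = 1 := Matrix.nonsing_inv_mul _ hau
  have h3 : c * a⁻¹ = 0 := by
    apply vanishing_zero hp hΓ
    intro γ
    have h4 := h γ
    obtain ⟨N, hN⟩ : ∃ N : MM p q, N = cay (-Y) * mat (emb p q γ) * cay Y := ⟨_, rfl⟩
    rw [← hN] at h4
    have h5 : cay Y * N = mat (emb p q (γ : HH p q)) * cay Y := by
      rw [hN, ← Matrix.mul_assoc, ← Matrix.mul_assoc, cay_mul_cay_neg Y hY, Matrix.one_mul]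
    have h6 := congrArg Matrix.toBlocks₁₁ h5
    have h7 := congrArg Matrix.toBlocks₂₁ h5
    rw [blocks11_mul, blocks11_mul, h4, mat_emb, Matrix.toBlocks_fromBlocks₁₁,
      Matrix.toBlocks_fromBlocks₁₂, Matrix.zero_mul, Matrix.mul_zero, add_zero, add_zero] at h6
    rw [blocks21_mul, blocks21_mul, h4, mat_emb, Matrix.toBlocks_fromBlocks₂₁,
      Matrix.toBlocks_fromBlocks₂₂, Matrix.zero_mul, Matrix.mul_zero, add_zero, zero_add] at h7
    rw [← ha] at h6
    rw [← hc] at h7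
    have h8 : N.toBlocks₁₁ = a⁻¹ * (mat (γ : HH p q).1 * a) := by
      rw [← h6, ← Matrix.mul_assoc, e2, Matrix.one_mul]
    rw [act_apply]
    calc mat (γ : HH p q).2 * (c * a⁻¹) * mat (γ : HH p q).1⁻¹
        = (mat (γ : HH p q).2 * c) * a⁻¹ * mat (γ : HH p q).1⁻¹ := by
          simp only [Matrix.mul_assoc]
      _ = c * a⁻¹ * mat (γ : HH p q).1 * (a * a⁻¹) * mat (γ : HH p q).1⁻¹ := by
          rw [← h7, h8]; simp only [Matrix.mul_assoc]
      _ = c * a⁻¹ := by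
          rw [e1, Matrix.mul_one, Matrix.mul_assoc, mat_mul_inv, Matrix.mul_one]
  have h4 : c = 0 := by
    calc c = c * a⁻¹ * a := by rw [Matrix.mul_assoc, e2, Matrix.mul_one]
      _ = 0 := by rw [h3, Matrix.zero_mul]
  rw [h4, Matrix.zero_mul] at h2
  exact (smul_eq_zero.1 h2.symm).resolve_left two_ne_zero

/-- a symmetric generating set -/
theorem exists_sym_generators (hp : 1 ≤ p) (hq : 1 ≤ q) (hΓ : IsUniformLattice Γ) :
    ∃ T : Finset Γ, ∀ γ : Γ, ∃ l : List Γ, (∀ s ∈ l, s ∈ T) ∧ l.prod = γ := by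
  classical
  obtain ⟨S, hS⟩ := exists_generators hp hq hΓ
  refine ⟨S ∪ S.image Inv.inv, fun γ => ?_⟩
  have h : γ ∈ Subgroup.closure (S : Set Γ) := by rw [hS]; trivial
  rw [← Subgroup.mem_toSubmonoid, Subgroup.closure_toSubmonoid] at h
  obtain ⟨l, hl, hl'⟩ := Submonoid.exists_list_of_mem_closure h
  refine ⟨l, fun s hs => ?_, hl'⟩
  rcases hl s hs with h1 | h1
  · exact Finset.mem_union_left _ h1
  · refine Finset.mem_union_right _ (Finset.mem_image.2 ⟨s⁻¹, h1, inv_inv s⟩)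

theorem exists_radius (p q : ℕ) : ∃ ε : ℝ, 0 < ε ∧ ∀ Y : M1 p q, ‖Y‖ ≤ ε →
    (1 - xi Y).det ≠ 0 ∧ (1 + adj Y * Y).det ≠ 0 := by
  have hadj : Continuous (adj : M1 p q → Matrix (Fin (p + 1)) (Fin (q + 1)) ℝ) :=
    ((continuous_const.matrix_mul continuous_id.matrix_transpose).matrix_mul continuous_const).neg
  have h1 : Continuous fun Y : M1 p q => (1 - xi Y).det :=
    (continuous_const.sub continuous_xi).matrix_det
  have h2 : Continuous fun Y : M1 p q => (1 + adj Y * Y).det :=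
    (continuous_const.add (hadj.matrix_mul continuous_id)).matrix_det
  have h3 : IsOpen {Y : M1 p q | (1 - xi Y).det ≠ 0 ∧ (1 + adj Y * Y).det ≠ 0} :=
    (isOpen_ne_fun h1 continuous_const).inter (isOpen_ne_fun h2 continuous_const)
  have h4 : (0 : M1 p q) ∈ {Y : M1 p q | (1 - xi Y).det ≠ 0 ∧ (1 + adj Y * Y).det ≠ 0} := by
    constructor
    · rw [xi_zero, sub_zero, Matrix.det_one]; exact one_ne_zero
    · rw [Matrix.mul_zero, add_zero, Matrix.det_one]; exact one_ne_zero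
  obtain ⟨ε, hε, hb⟩ := Metric.isOpen_iff.1 h3 0 h4
  refine ⟨ε / 2, half_pos hε, fun Y hY => hb ?_⟩
  rw [Metric.mem_ball, dist_zero_right]
  linarith

/-- the displacement -/
noncomputable def disp (T : Finset Γ) (ρ : Γ →* SO2 p q) (Y : M1 p q) : ℝ :=
  ∑ s ∈ T, ‖(cay (-Y) * mat (ρ s) * cay Y).toBlocks₂₁‖

theorem disp_nonneg (T : Finset Γ) (ρ : Γ →* SO2 p q) (Y : M1 p q) : 0 ≤ disp T ρ Y :=
  Finset.sum_nonneg fun _ _ => norm_nonneg _

theorem tendsto_conj {α : Type} {l : Filter α} {f : α → M1 p q} {g : α → SO2 p q} {Y : M1 p q}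
    {h : SO2 p q}
    (hY : (1 - xi Y).det ≠ 0) (hf : Tendsto f l (𝓝 Y)) (hg : Tendsto g l (𝓝 h)) :
    Tendsto (fun a => cay (-f a) * mat (g a) * cay (f a)) l
      (𝓝 (cay (-Y) * mat h * cay Y)) := by
  have h1 := tendsto_cay hY hf
  have h2 := tendsto_cay (det_neg_ne Y hY) hf.neg
  have h3 : Tendsto (fun a => mat (g a)) l (𝓝 (mat h)) := (continuous_mat.tendsto h).comp hg
  exact (h2.mul h3).mul h1

theorem exists_min (T : Finset Γ) {ε : ℝ} (hε : 0 < ε)
    (hb : ∀ Y : M1 p q, ‖Y‖ ≤ ε → (1 - xi Y).det ≠ 0 ∧ (1 + adj Y * Y).det ≠ 0)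
    (ρ : Γ →* SO2 p q) :
    ∃ Y₀ : M1 p q, ‖Y₀‖ ≤ ε ∧ ∀ Y : M1 p q, ‖Y‖ ≤ ε → disp T ρ Y₀ ≤ disp T ρ Y := by
  have hc : IsCompact (Metric.closedBall (0 : M1 p q) ε) := by
    have : ProperSpace (M1 p q) := FiniteDimensional.proper ℝ _
    exact isCompact_closedBall _ _
  have hcont : ContinuousOn (disp T ρ) (Metric.closedBall (0 : M1 p q) ε) := by
    intro Y hY
    rw [mem_closedBall_zero_iff] at hY
    apply ContinuousAt.continuousWithinAt
    apply tendsto_finsetSum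
    intro s _
    have := tendsto_conj (l := 𝓝 Y) (g := fun _ => ρ s) (hb Y hY).1 tendsto_id tendsto_const_nhds
    exact ((continuous_blocks21.tendsto _).comp this).norm
  obtain ⟨Y₀, h1, h2⟩ := hc.exists_isMinOn ⟨0, by simp [hε.le]⟩ hcont
  refine ⟨Y₀, mem_closedBall_zero_iff.1 h1, fun Y hY => h2 (mem_closedBall_zero_iff.2 hY)⟩

end Pool.Agent.H105R2.Lat
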