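import Pool.Agent.H105R2.Lat.G

/-!
# Improving the displacement along an ultrafilter
-/

set_option autoImplicit false

namespace Pool.Agent.H105R2.Lat

open Matrix Topology Filter

attribute [local instance] Matrix.normedAddCommGroup Matrix.normedSpace

variable {p q : ℕ} {Γ : Subgroup (HH p q)}

theorem exists_ulim {α : Type} (𝒰 : Ultrafilter α) (f : α → M1 p q) (C : ℝ)
    (h : ∀ᶠ a in (𝒰 : Filter α), ‖f a‖ ≤ C) :
    ∃ x : M1 p q, ‖x‖ ≤ C ∧ Tendsto f 𝒰 (𝓝 x) := by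
  have hc : IsCompact (Metric.closedBall (0 : M1 p q) C) := by
    have : ProperSpace (M1 p q) := FiniteDimensional.proper ℝ _
    exact isCompact_closedBall _ _
  obtain ⟨x, hx, hx'⟩ := hc.ultrafilter_le_nhds (𝒰.map f) (by
    rw [le_principal_iff, Ultrafilter.mem_coe, Ultrafilter.mem_map]
    filter_upwards [h] with a ha
    exact mem_closedBall_zero_iff.2 ha)
  exact ⟨x, mem_closedBall_zero_iff.1 hx, hx'⟩

theorem tendsto_mmul {α l m n : Type} [Fintype m] {F : Filter α}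
    {f : α → Matrix l m ℝ} {g : α → Matrix m n ℝ} {a : Matrix l m ℝ} {b : Matrix m n ℝ}
    (hf : Tendsto f F (𝓝 a)) (hg : Tendsto g F (𝓝 b)) :
    Tendsto (fun x => f x * g x) F (𝓝 (a * b)) := by
  have h : Continuous fun x : Matrix l m ℝ × Matrix m n ℝ => x.1 * x.2 :=
    continuous_fst.matrix_mul continuous_snd
  exact (h.tendsto (a, b)).comp (hf.prodMk_nhds hg)

/-- the conjugate -/
noncomputable def conj (Y : M1 p q) (g : SO2 p q) : MM p q := cay (-Y) * mat g * cay Y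

theorem conj_mul (Y : M1 p q) (hY : (1 - xi Y).det ≠ 0) (g h : SO2 p q) :
    conj Y (g * h) = conj Y g * conj Y h := by
  rw [conj, conj, conj, mat_mul]
  calc cay (-Y) * (mat g * mat h) * cay Y
      = cay (-Y) * mat g * 1 * mat h * cay Y := by
        rw [Matrix.mul_one]; simp only [Matrix.mul_assoc]
    _ = cay (-Y) * mat g * cay Y * (cay (-Y) * mat h * cay Y) := by
        rw [← cay_mul_cay_neg Y hY]; simp only [Matrix.mul_assoc]

theorem conj_one (Y : M1 p q) (hY : (1 - xi Y).det ≠ 0) : conj Y (1 : SO2 p q) = 1 := by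
  rw [conj, mat_one, Matrix.mul_one, cay_neg_mul_cay Y hY]

theorem conj_zero (g : SO2 p q) : conj 0 g = mat g := by
  rw [conj, neg_zero, cay_zero, Matrix.one_mul, Matrix.mul_one]

theorem disp_eq (T : Finset Γ) (ρ : Γ →* SO2 p q) (Y : M1 p q) :
    disp T ρ Y = ∑ s ∈ T, ‖(conj Y (ρ s)).toBlocks₂₁‖ := rfl

/-- the quotient of differences of the Cayley transform -/
noncomputable def dq (Y Z : M1 p q) (δ : ℝ) : MM p q :=
  (2 : ℝ) • ((1 - xi (Y + δ • Z))⁻¹ * xi Z * (1 - xi Y)⁻¹)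

theorem tendsto_dq {α : Type} {l : Filter α} {Y : α → M1 p q} {δ : α → ℝ} (Z : M1 p q)
    (hY : Tendsto Y l (𝓝 0)) (hδ : Tendsto δ l (𝓝 0)) :
    Tendsto (fun a => dq (Y a) Z (δ a)) l (𝓝 ((2 : ℝ) • xi Z)) := by
  have h0 : (1 - xi (0 : M1 p q)).det ≠ 0 := by
    rw [xi_zero, sub_zero, Matrix.det_one]; exact one_ne_zero
  have h1 : Tendsto (fun a => Y a + δ a • Z) l (𝓝 0) := by
    have := hY.add (hδ.smul_const Z)
    rwa [zero_smul, add_zero] at this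
  have h2 : ∀ f : α → M1 p q, Tendsto f l (𝓝 0) →
      Tendsto (fun a => (1 - xi (f a))⁻¹) l (𝓝 1) := by
    intro f hf
    have h3 : Tendsto (fun a => 1 - xi (f a)) l (𝓝 (1 - xi (0 : M1 p q))) :=
      tendsto_const_nhds.sub ((continuous_xi.tendsto 0).comp hf)
    have h4 := tendsto_matrix_inv h0 h3
    rwa [xi_zero, sub_zero, inv_one] at h4
  have h5 := (((h2 _ h1).mul (tendsto_const_nhds (x := xi Z))).mul (h2 _ hY)).const_smul (2 : ℝ)
  rwa [Matrix.one_mul, Matrix.mul_one] at h5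

theorem conj_add (Y Z : M1 p q) (δ : ℝ) (hY : (1 - xi Y).det ≠ 0)
    (hZ : (1 - xi (Y + δ • Z)).det ≠ 0) (g : SO2 p q) :
    conj (Y + δ • Z) g = conj Y g + δ • (dq (-Y) (-Z) δ * mat g * cay Y +
      cay (-Y) * mat g * dq Y Z δ + δ • (dq (-Y) (-Z) δ * mat g * dq Y Z δ)) := by
  have h1 : cay (Y + δ • Z) = cay Y + δ • dq Y Z δ := cay_sub Y Z δ hY hZ
  have h2 : -(Y + δ • Z) = -Y + δ • (-Z) := by rw [neg_add, smul_neg]
  have h3 : cay (-(Y + δ • Z)) = cay (-Y) + δ • dq (-Y) (-Z) δ := by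
    rw [h2]
    exact cay_sub (-Y) (-Z) δ (det_neg_ne Y hY) (by rw [← h2]; exact det_neg_ne _ hZ)
  rw [conj, conj, h1, h3]
  simp only [Matrix.add_mul, Matrix.mul_add, Matrix.smul_mul, Matrix.mul_smul, smul_add]
  abel

theorem improve (hp : 1 ≤ p) (hq : 1 ≤ q) (hΓ : IsUniformLattice Γ)
    (𝒰 : Ultrafilter (Γ →* SO2 p q))
    (h𝒰 : ∀ γ : Γ, Tendsto (fun ρ : Γ →* SO2 p q => ρ γ) 𝒰 (𝓝 (emb p q γ)))
    (T : Finset Γ) (hT : ∀ γ : Γ, ∃ l : List Γ, (∀ s ∈ l, s ∈ T) ∧ l.prod = γ)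
    (Y : (Γ →* SO2 p q) → M1 p q) (hY : Tendsto Y 𝒰 (𝓝 0))
    (hpos : ∀ᶠ ρ in (𝒰 : Filter (Γ →* SO2 p q)), disp T ρ (Y ρ) ≠ 0) :
    ∃ Y' : (Γ →* SO2 p q) → M1 p q, Tendsto Y' 𝒰 (𝓝 0) ∧
      ∀ᶠ ρ in (𝒰 : Filter (Γ →* SO2 p q)), disp T ρ (Y' ρ) < disp T ρ (Y ρ) := by
  have h0 : (1 - xi (0 : M1 p q)).det ≠ 0 := by
    rw [xi_zero, sub_zero, Matrix.det_one]; exact one_ne_zero
  have hdet : ∀ f : (Γ →* SO2 p q) → M1 p q, Tendsto f 𝒰 (𝓝 0) →
      ∀ᶠ ρ in (𝒰 : Filter (Γ →* SO2 p q)), (1 - xi (f ρ)).det ≠ 0 := by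
    intro f hf
    have h1 : Continuous fun Y : M1 p q => (1 - xi Y).det :=
      (continuous_const.sub continuous_xi).matrix_det
    exact ((h1.tendsto 0).comp hf).eventually_ne h0
  have hgood := hdet Y hY
  -- the conjugates converge
  have hN : ∀ γ : Γ, Tendsto (fun ρ : Γ →* SO2 p q => conj (Y ρ) (ρ γ)) 𝒰
      (𝓝 (mat (emb p q γ))) := by
    intro γ
    have := tendsto_conj h0 hY (h𝒰 γ)
    rw [neg_zero, cay_zero, Matrix.one_mul, Matrix.mul_one] at this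
    exact this
  have hδ0 : Tendsto (fun ρ => disp T ρ (Y ρ)) 𝒰 (𝓝 0) := by
    have h1 : ∀ s ∈ T, Tendsto (fun ρ : Γ →* SO2 p q => ‖(conj (Y ρ) (ρ s)).toBlocks₂₁‖) 𝒰
        (𝓝 0) := by
      intro s _
      have h2 := ((continuous_blocks21.tendsto _).comp (hN s)).norm
      rw [mat_emb, Matrix.toBlocks_fromBlocks₂₁, norm_zero] at h2
      exact h2
    have h3 := tendsto_finsetSum T h1
    rw [Finset.sum_const_zero] at h3
    exact h3
  -- the rescaled lower left blocks converge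
  have hlist : ∀ l : List Γ, (∀ s ∈ l, s ∈ T) → ∃ x : M1 p q,
      Tendsto (fun ρ : Γ →* SO2 p q => (disp T ρ (Y ρ))⁻¹ • (conj (Y ρ) (ρ l.prod)).toBlocks₂₁)
        𝒰 (𝓝 x) := by
    intro l
    induction l with
    | nil =>
      intro _
      refine ⟨0, ?_⟩
      refine Tendsto.congr' ?_ tendsto_const_nhds
      filter_upwards [hgood] with ρ hρ
      rw [List.prod_nil, map_one, conj_one _ hρ]
      have : (1 : MM p q).toBlocks₂₁ = 0 := by
        rw [← Matrix.fromBlocks_one, Matrix.toBlocks_fromBlocks₂₁]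
      rw [this, smul_zero]
    | cons s l ih =>
      intro hl
      obtain ⟨x, hx⟩ := ih fun t ht => hl t (List.mem_cons_of_mem _ ht)
      obtain ⟨y, -, hy⟩ := exists_ulim 𝒰
        (fun ρ : Γ →* SO2 p q => (disp T ρ (Y ρ))⁻¹ • (conj (Y ρ) (ρ s)).toBlocks₂₁) 1 (by
          filter_upwards [hpos] with ρ hρ
          have h1 : 0 < disp T ρ (Y ρ) := lt_of_le_of_ne (disp_nonneg _ _ _) (Ne.symm hρ)
          rw [norm_smul, norm_inv, Real.norm_of_nonneg h1.le, inv_mul_le_iff₀ h1, mul_one,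
            disp_eq]
          exact Finset.single_le_sum
            (f := fun s => ‖(conj (Y ρ) (ρ s)).toBlocks₂₁‖) (fun _ _ => norm_nonneg _)
            (hl s List.mem_cons_self))
      refine ⟨y * mat (l.prod : HH p q).1 + mat (s : HH p q).2 * x, ?_⟩
      have h11 : Tendsto (fun ρ : Γ →* SO2 p q => (conj (Y ρ) (ρ l.prod)).toBlocks₁₁) 𝒰
          (𝓝 (mat (l.prod : HH p q).1)) := (continuous_blocks11.tendsto _).comp (hN l.prod)
      have h22 : Tendsto (fun ρ : Γ →* SO2 p q => (conj (Y ρ) (ρ s)).toBlocks₂₂) 𝒰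
          (𝓝 (mat (s : HH p q).2)) := (continuous_blocks22.tendsto _).comp (hN s)
      have h5 := (tendsto_mmul hy h11).add (tendsto_mmul h22 hx)
      refine Tendsto.congr' ?_ h5
      filter_upwards [hgood] with ρ hρ
      rw [List.prod_cons, map_mul, conj_mul _ hρ, blocks21_mul, smul_add, Matrix.smul_mul,
        Matrix.mul_smul]
  have hlim : ∀ γ : Γ, ∃ x : M1 p q,
      Tendsto (fun ρ : Γ →* SO2 p q => (disp T ρ (Y ρ))⁻¹ • (conj (Y ρ) (ρ γ)).toBlocks₂₁)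
        𝒰 (𝓝 x) := by
    intro γ
    obtain ⟨l, hl, rfl⟩ := hT γ
    exact hlist l hl
  choose c hc using hlim
  have hcoc : ∀ γ γ' : Γ, c (γ * γ') = c γ * mat (γ' : HH p q).1 + mat (γ : HH p q).2 * c γ' := by
    intro γ γ'
    have h11 : Tendsto (fun ρ : Γ →* SO2 p q => (conj (Y ρ) (ρ γ')).toBlocks₁₁) 𝒰
        (𝓝 (mat (γ' : HH p q).1)) := (continuous_blocks11.tendsto _).comp (hN γ')
    have h22 : Tendsto (fun ρ : Γ →* SO2 p q => (conj (Y ρ) (ρ γ)).toBlocks₂₂) 𝒰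
        (𝓝 (mat (γ : HH p q).2)) := (continuous_blocks22.tendsto _).comp (hN γ)
    have h5 := (tendsto_mmul (hc γ) h11).add (tendsto_mmul h22 (hc γ'))
    refine tendsto_nhds_unique (hc (γ * γ')) (Tendsto.congr' ?_ h5)
    filter_upwards [hgood] with ρ hρ
    rw [map_mul, conj_mul _ hρ, blocks21_mul, smul_add, Matrix.smul_mul, Matrix.mul_smul]
  obtain ⟨X, hX⟩ := vanishing hp hq hΓ (fun γ => c γ * mat (γ : HH p q).1⁻¹) (by
    intro γ γ'
    change c (γ * γ') * mat ((γ : HH p q) * (γ' : HH p q)).1⁻¹ = _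
    rw [hcoc, Matrix.add_mul, Prod.fst_mul, _root_.mul_inv_rev, mat_mul, act_apply]
    congr 1
    · rw [Matrix.mul_assoc, ← Matrix.mul_assoc (mat (γ' : HH p q).1), mat_mul_inv, Matrix.one_mul]
    · simp only [Matrix.mul_assoc])
  have hX' : ∀ γ : Γ, c γ = mat (γ : HH p q).2 * X - X * mat (γ : HH p q).1 := by
    intro γ
    have h1 := congrArg (· * mat (γ : HH p q).1) (hX γ)
    simp only [act_apply, Matrix.sub_mul, Matrix.mul_assoc, mat_inv_mul, Matrix.mul_one] at h1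
    exact h1
  set Z : M1 p q := (-(1 / 2) : ℝ) • X with hZ
  have hY' : Tendsto (fun ρ => Y ρ + disp T ρ (Y ρ) • Z) 𝒰 (𝓝 0) := by
    have := hY.add (hδ0.smul_const Z)
    rwa [zero_smul, add_zero] at this
  refine ⟨fun ρ => Y ρ + disp T ρ (Y ρ) • Z, hY', ?_⟩
  have hgood' := hdet _ hY'
  have hnegY : Tendsto (fun ρ => -Y ρ) 𝒰 (𝓝 0) := by
    have := hY.neg
    rwa [neg_zero] at this
  have hcay : Tendsto (fun ρ => cay (Y ρ)) 𝒰 (𝓝 1) := by
    have := tendsto_cay h0 hY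
    rwa [cay_zero] at this
  have hcay' : Tendsto (fun ρ => cay (-Y ρ)) 𝒰 (𝓝 1) := by
    have := tendsto_cay h0 hnegY
    rwa [cay_zero] at this
  have hE := tendsto_dq Z hY hδ0
  have hE' := tendsto_dq (-Z) hnegY hδ0
  let r : (Γ →* SO2 p q) → Γ → M1 p q := fun ρ s =>
    (disp T ρ (Y ρ))⁻¹ • (conj (Y ρ) (ρ s)).toBlocks₂₁ +
      (dq (-Y ρ) (-Z) (disp T ρ (Y ρ)) * mat (ρ s) * cay (Y ρ) +
        cay (-Y ρ) * mat (ρ s) * dq (Y ρ) Z (disp T ρ (Y ρ)) +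
        (disp T ρ (Y ρ)) • (dq (-Y ρ) (-Z) (disp T ρ (Y ρ)) * mat (ρ s) *
          dq (Y ρ) Z (disp T ρ (Y ρ)))).toBlocks₂₁
  have hr : ∀ s : Γ, Tendsto (fun ρ => r ρ s) 𝒰 (𝓝 0) := by
    intro s
    have hm : Tendsto (fun ρ : Γ →* SO2 p q => mat (ρ s)) 𝒰 (𝓝 (mat (emb p q s))) :=
      (continuous_mat.tendsto _).comp (h𝒰 s)
    have h1 := (((hE'.mul hm).mul hcay).add ((hcay'.mul hm).mul hE)).add
      (hδ0.smul ((hE'.mul hm).mul hE))
    have h2 := (hc s).add ((continuous_blocks21.tendsto _).comp h1)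
    have h3 : c s + ((2 : ℝ) • xi (-Z) * mat (emb p q (s : HH p q)) * 1 +
        1 * mat (emb p q (s : HH p q)) * (2 : ℝ) • xi Z +
        (0 : ℝ) • ((2 : ℝ) • xi (-Z) * mat (emb p q (s : HH p q)) * (2 : ℝ) • xi Z)).toBlocks₂₁
        = 0 := by
      rw [zero_smul, add_zero, Matrix.mul_one, Matrix.one_mul, mat_emb, xi, xi,
        Matrix.fromBlocks_smul, Matrix.fromBlocks_smul, Matrix.fromBlocks_multiply,
        Matrix.fromBlocks_multiply, Matrix.fromBlocks_add, Matrix.toBlocks_fromBlocks₂₁]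
      simp only [smul_zero, Matrix.mul_zero, Matrix.zero_mul, add_zero, zero_add]
      rw [hX' s, hZ]
      simp only [Matrix.smul_mul, Matrix.mul_smul, smul_neg, smul_smul, Matrix.neg_mul]
      norm_num
      abel
    rw [h3] at h2
    exact h2
  have hsum : Tendsto (fun ρ => ∑ s ∈ T, ‖r ρ s‖) 𝒰 (𝓝 0) := by
    have h1 : ∀ s ∈ T, Tendsto (fun ρ => ‖r ρ s‖) 𝒰 (𝓝 0) := by
      intro s _
      have := (hr s).norm
      rwa [norm_zero] at this
    have h3 := tendsto_finsetSum T h1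
    simpa using h3
  have hlt := hsum.eventually_lt_const zero_lt_one
  filter_upwards [hgood, hgood', hpos, hlt] with ρ h1 h2 h3 h4
  have h5 : 0 < disp T ρ (Y ρ) := lt_of_le_of_ne (disp_nonneg _ _ _) (Ne.symm h3)
  have h6 : ∀ s : Γ, (conj (Y ρ + disp T ρ (Y ρ) • Z) (ρ s)).toBlocks₂₁ =
      disp T ρ (Y ρ) • r ρ s := by
    intro s
    rw [conj_add _ _ _ h1 h2, blocks21_add, blocks21_smul]
    change _ = disp T ρ (Y ρ) • (_ + _)
    rw [smul_add, smul_smul, mul_inv_cancel₀ h3, one_smul]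
  calc disp T ρ (Y ρ + disp T ρ (Y ρ) • Z)
      = ∑ s ∈ T, disp T ρ (Y ρ) * ‖r ρ s‖ := by
        rw [disp_eq]
        refine Finset.sum_congr rfl fun s _ => ?_
        rw [h6, norm_smul, Real.norm_of_nonneg h5.le]
    _ = disp T ρ (Y ρ) * ∑ s ∈ T, ‖r ρ s‖ := by rw [Finset.mul_sum]
    _ < disp T ρ (Y ρ) * 1 := mul_lt_mul_of_pos_left h4 h5
    _ = disp T ρ (Y ρ) := mul_one _

end Pool.Agent.H105R2.Lat
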