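import Pool.Agent.H105R2.Lat.H

/-!
# Homomorphisms near the inclusion are conjugate into `SO(1,p) × SO(1,q)`
-/

set_option autoImplicit false

namespace Pool.Agent.H105R2.Lat

open Matrix Topology Filter

attribute [local instance] Matrix.normedAddCommGroup Matrix.normedSpace

variable {p q : ℕ} {Γ : Subgroup (HH p q)}

theorem det_J_ne (p : ℕ) : (J p).det ≠ 0 := by
  intro h
  have := congrArg Matrix.det (J_mul_J p)
  rw [Matrix.det_mul, h, zero_mul, Matrix.det_one] at this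
  exact zero_ne_one this

/-- An upper block triangular element of `SO(2,p+q)` is block diagonal. -/
theorem block_diag (g : SO2 p q) (h : (mat g).toBlocks₂₁ = 0) :
    mat g = Matrix.fromBlocks (mat g).toBlocks₁₁ 0 0 (mat g).toBlocks₂₂ ∧
      Matrix.transpose (mat g).toBlocks₁₁ * J p * (mat g).toBlocks₁₁ = J p ∧
      Matrix.transpose (mat g).toBlocks₂₂ * J q * (mat g).toBlocks₂₂ = J q ∧
      (mat g).toBlocks₁₁.det * (mat g).toBlocks₂₂.det = 1 := by
  set A := (mat g).toBlocks₁₁ with hA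
  set B := (mat g).toBlocks₁₂ with hB
  set D := (mat g).toBlocks₂₂ with hD
  have h1 : mat g = Matrix.fromBlocks A B 0 D := by
    rw [hA, hB, hD, ← h, Matrix.fromBlocks_toBlocks]
  have hdet : A.det * D.det = 1 := by
    have := mat_det g
    rwa [h1, Matrix.det_fromBlocks_zero₂₁] at this
  have hf := mat_form g
  rw [h1, JJ, Matrix.fromBlocks_transpose, Matrix.fromBlocks_multiply,
    Matrix.fromBlocks_multiply] at hf
  simp only [Matrix.transpose_zero, Matrix.mul_zero, Matrix.zero_mul, add_zero, zero_add] at hf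
  have e11 := congrArg Matrix.toBlocks₁₁ hf
  have e12 := congrArg Matrix.toBlocks₁₂ hf
  have e22 := congrArg Matrix.toBlocks₂₂ hf
  simp only [Matrix.toBlocks_fromBlocks₁₁, Matrix.toBlocks_fromBlocks₁₂,
    Matrix.toBlocks_fromBlocks₂₂] at e11 e12 e22
  have hu : IsUnit (Matrix.transpose A * J p) := by
    rw [Matrix.isUnit_iff_isUnit_det, Matrix.det_mul, Matrix.det_transpose, isUnit_iff_ne_zero]
    exact mul_ne_zero (left_ne_zero_of_mul_eq_one hdet) (det_J_ne p)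
  have hB0 : B = 0 := by
    have h2 : (Matrix.transpose A * J p)⁻¹ * (Matrix.transpose A * J p * B) = B := by
      rw [← Matrix.mul_assoc, Matrix.nonsing_inv_mul _ ((Matrix.isUnit_iff_isUnit_det _).1 hu),
        Matrix.one_mul]
    rw [← h2, e12, Matrix.mul_zero]
  rw [hB0] at h1 e22
  refine ⟨h1, e11, ?_, hdet⟩
  rwa [Matrix.transpose_zero, Matrix.zero_mul, Matrix.zero_mul, zero_add] at e22

theorem det_of_form {p : ℕ} {A : Matrix (Fin (p + 1)) (Fin (p + 1)) ℝ}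
    (h : Matrix.transpose A * J p * A = J p) : A.det = 1 ∨ A.det = -1 := by
  have h1 := congrArg Matrix.det h
  rw [Matrix.det_mul, Matrix.det_mul, Matrix.det_transpose] at h1
  have h2 : (A.det * A.det) * (J p).det = 1 * (J p).det := by rw [one_mul]; linarith
  exact mul_self_eq_one_iff.1 (mul_right_cancel₀ (det_J_ne p) h2)

theorem main_ultra (hp : 1 ≤ p) (hq : 1 ≤ q) (hΓ : IsUniformLattice Γ)
    (𝒰 : Ultrafilter (Γ →* SO2 p q))
    (h𝒰 : ∀ γ : Γ, Tendsto (fun ρ : Γ →* SO2 p q => ρ γ) 𝒰 (𝓝 (emb p q γ))) :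
    ∀ᶠ ρ in (𝒰 : Filter (Γ →* SO2 p q)), ConjInto ρ := by
  obtain ⟨T, hT⟩ := exists_sym_generators hp hq hΓ
  obtain ⟨ε, hε, hb⟩ := exists_radius p q
  choose Y hYε hYmin using exists_min (Γ := Γ) T hε hb
  obtain ⟨Y0, hY0, hlim⟩ := exists_ulim 𝒰 Y ε (Eventually.of_forall hYε)
  have h0 : (1 - xi (0 : M1 p q)).det ≠ 0 := by
    rw [xi_zero, sub_zero, Matrix.det_one]; exact one_ne_zero
  have hconj : ∀ γ : Γ, Tendsto (fun ρ : Γ →* SO2 p q => conj (Y ρ) (ρ γ)) 𝒰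
      (𝓝 (conj Y0 (emb p q γ))) := fun γ => tendsto_conj (hb Y0 hY0).1 hlim (h𝒰 γ)
  -- the displacement tends to zero
  have hd0 : Tendsto (fun ρ : Γ →* SO2 p q => disp T ρ 0) 𝒰 (𝓝 0) := by
    have h1 : ∀ s ∈ T, Tendsto (fun ρ : Γ →* SO2 p q => ‖(conj 0 (ρ s)).toBlocks₂₁‖) 𝒰
        (𝓝 0) := by
      intro s _
      have h3 : Tendsto (fun ρ : Γ →* SO2 p q => mat (ρ s)) 𝒰 (𝓝 (mat (emb p q s))) :=
        (continuous_mat.tendsto _).comp (h𝒰 s)
      have h2 := ((continuous_blocks21.tendsto _).comp h3).norm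
      rw [mat_emb, Matrix.toBlocks_fromBlocks₂₁, norm_zero] at h2
      simp only [conj_zero]
      exact h2
    have h3 := tendsto_finsetSum T h1
    rw [Finset.sum_const_zero] at h3
    exact h3
  have hd1 : Tendsto (fun ρ : Γ →* SO2 p q => disp T ρ (Y ρ)) 𝒰 (𝓝 0) :=
    squeeze_zero (fun ρ => disp_nonneg _ _ _) (fun ρ => hYmin ρ 0 (by rw [norm_zero]; exact hε.le))
      hd0
  have hd2 : Tendsto (fun ρ : Γ →* SO2 p q => disp T ρ (Y ρ)) 𝒰
      (𝓝 (∑ s ∈ T, ‖(conj Y0 (emb p q (s : HH p q))).toBlocks₂₁‖)) := by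
    apply tendsto_finsetSum
    intro s _
    exact ((continuous_blocks21.tendsto _).comp (hconj s)).norm
  have hs0 := tendsto_nhds_unique hd2 hd1
  have hs1 : ∀ s ∈ T, (conj Y0 (emb p q (s : HH p q))).toBlocks₂₁ = 0 := by
    intro s hs
    have := (Finset.sum_eq_zero_iff_of_nonneg (fun _ _ => norm_nonneg _)).1 hs0 s hs
    exact norm_eq_zero.1 this
  -- for lists
  have hlist : ∀ (Y : M1 p q), (1 - xi Y).det ≠ 0 → ∀ ρ : Γ →* SO2 p q,
      (∀ s ∈ T, (conj Y (ρ s)).toBlocks₂₁ = 0) → ∀ γ : Γ, (conj Y (ρ γ)).toBlocks₂₁ = 0 := by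
    intro Y hY ρ hρ γ
    obtain ⟨l, hl, rfl⟩ := hT γ
    induction l with
    | nil =>
      rw [List.prod_nil, map_one, conj_one _ hY]
      rw [← Matrix.fromBlocks_one, Matrix.toBlocks_fromBlocks₂₁]
    | cons s l ih =>
      rw [List.prod_cons, map_mul, conj_mul _ hY, blocks21_mul, hρ s (hl s List.mem_cons_self),
        ih fun t ht => hl t (List.mem_cons_of_mem _ ht), Matrix.zero_mul, Matrix.mul_zero,
        add_zero]
  have hY00 : Y0 = 0 := by
    refine eq_zero_of_invariant hp hΓ Y0 (hb Y0 hY0).1 (hb Y0 hY0).2 ?_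
    exact hlist Y0 (hb Y0 hY0).1 ((emb p q).comp Γ.subtype) hs1
  rw [hY00] at hlim hconj
  -- the displacement vanishes
  have hz : ∀ᶠ ρ in (𝒰 : Filter (Γ →* SO2 p q)), disp T ρ (Y ρ) = 0 := by
    by_contra hcon
    have hpos : ∀ᶠ ρ in (𝒰 : Filter (Γ →* SO2 p q)), disp T ρ (Y ρ) ≠ 0 :=
      Ultrafilter.eventually_not.2 hcon
    obtain ⟨Y', hY', hlt⟩ := improve hp hq hΓ 𝒰 h𝒰 T hT Y hlim hpos
    have hball : ∀ᶠ ρ in (𝒰 : Filter (Γ →* SO2 p q)), ‖Y' ρ‖ ≤ ε := by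
      have h1 := hY'.norm
      rw [norm_zero] at h1
      filter_upwards [h1.eventually_lt_const hε] with ρ hρ
      exact hρ.le
    obtain ⟨ρ, h1, h2⟩ := (hlt.and hball).exists
    exact absurd (hYmin ρ (Y' ρ) h2) (not_le.2 h1)
  -- determinants
  have hdet : ∀ᶠ ρ in (𝒰 : Filter (Γ →* SO2 p q)), ∀ s ∈ T,
      0 < (conj (Y ρ) (ρ s)).toBlocks₁₁.det := by
    rw [Finset.eventually_all]
    intro s _
    have h1 := (continuous_blocks11.tendsto _).comp (hconj s)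
    have h2 := (continuous_id.matrix_det.tendsto _).comp h1
    have h3 : (0 : ℝ) < Matrix.det (Matrix.toBlocks₁₁ (conj 0 (emb p q (s : HH p q)))) := by
      rw [conj_zero, mat_emb, Matrix.toBlocks_fromBlocks₁₁, mat_det]
      exact one_pos
    exact h2.eventually_const_lt h3
  filter_upwards [hz, hdet] with ρ hρ1 hρ2
  have hgood := (hb (Y ρ) (hYε ρ)).1
  have hs2 : ∀ s ∈ T, (conj (Y ρ) (ρ s)).toBlocks₂₁ = 0 := by
    intro s hs
    have := (Finset.sum_eq_zero_iff_of_nonneg (fun _ _ => norm_nonneg _)).1 hρ1 s hs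
    exact norm_eq_zero.1 this
  have hs3 := hlist (Y ρ) hgood ρ hs2
  let g : SO2 p q := (cayG (Y ρ) hgood)⁻¹
  have hg : ∀ γ : Γ, mat (g * ρ γ * g⁻¹) = conj (Y ρ) (ρ γ) := by
    intro γ
    rw [mat_mul, mat_mul, inv_inv, mat_cayG, mat_cayG_inv]
    rfl
  have hdet1 : ∀ γ : Γ, 0 < (conj (Y ρ) (ρ γ)).toBlocks₁₁.det := by
    intro γ
    obtain ⟨l, hl, rfl⟩ := hT γ
    induction l with
    | nil =>
      rw [List.prod_nil, map_one, conj_one _ hgood, ← Matrix.fromBlocks_one,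
        Matrix.toBlocks_fromBlocks₁₁, Matrix.det_one]
      exact one_pos
    | cons s l ih =>
      rw [List.prod_cons, map_mul, conj_mul _ hgood, blocks11_mul, hs3 l.prod, Matrix.mul_zero,
        add_zero, Matrix.det_mul]
      exact mul_pos (hρ2 s (hl s List.mem_cons_self))
        (ih fun t ht => hl t (List.mem_cons_of_mem _ ht))
  refine ⟨g, fun γ => ?_⟩
  obtain ⟨e1, e2, e3, e4⟩ := block_diag (g * ρ γ * g⁻¹) (by rw [hg]; exact hs3 γ)
  have hd1 : (mat (g * ρ γ * g⁻¹)).toBlocks₁₁.det = 1 := by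
    rcases det_of_form e2 with h | h
    · exact h
    · have := hdet1 γ
      rw [← hg, h] at this
      norm_num at this
  have hd2 : (mat (g * ρ γ * g⁻¹)).toBlocks₂₂.det = 1 := by
    rwa [hd1, one_mul] at e4
  refine ⟨(mkSO _ hd1 e2, mkSO _ hd2 e3), ?_⟩
  apply mat_injective
  exact e1

/-- Every homomorphism near the inclusion is conjugate into `SO(1,p) × SO(1,q)`. -/
theorem main_nhds (hp : 1 ≤ p) (hq : 1 ≤ q) (hΓ : IsUniformLattice Γ) :
    RigidNearInclusion Γ := by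
  by_contra hcon
  have hcon : ∀ U ∈ 𝓝 (fun γ : Γ => emb p q γ), ∃ ρ : Γ →* SO2 p q, (fun γ => ρ γ) ∈ U ∧
      ¬ ConjInto ρ := by
    intro U hU
    by_contra h1
    push Not at h1
    exact hcon ⟨U, hU, h1⟩
  let F : Filter (Γ →* SO2 p q) :=
    Filter.comap (fun (ρ : Γ →* SO2 p q) (γ : Γ) => ρ γ) (𝓝 (fun γ : Γ => emb p q γ)) ⊓
      𝓟 {ρ | ¬ ConjInto ρ}
  have hF : F.NeBot := by
    rw [Filter.inf_principal_neBot_iff]
    intro V hV
    obtain ⟨U, hU, hUV⟩ := Filter.mem_comap.1 hV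
    obtain ⟨ρ, h1, h2⟩ := hcon U hU
    exact ⟨ρ, hUV h1, h2⟩
  have h1 : ((Ultrafilter.of F : Ultrafilter _) : Filter (Γ →* SO2 p q)) ≤ F := Ultrafilter.of_le F
  have h2 := main_ultra hp hq hΓ (Ultrafilter.of F) (by
    intro γ
    have h3 : Tendsto (fun (ρ : Γ →* SO2 p q) (γ : Γ) => ρ γ) (Ultrafilter.of F)
        (𝓝 (fun γ : Γ => emb p q γ)) :=
      Filter.tendsto_comap.mono_left (h1.trans inf_le_left)
    exact (tendsto_pi_nhds.1 h3) γ)
  have h3 : ∀ᶠ ρ in ((Ultrafilter.of F : Ultrafilter _) : Filter (Γ →* SO2 p q)), ¬ ConjInto ρ :=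
    h1 (Filter.mem_inf_of_right (mem_principal_self _))
  obtain ⟨ρ, h4, h5⟩ := (h2.and h3).exists
  exact h5 h4

end Pool.Agent.H105R2.Lat
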